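import Pool.Agent.K1H37.ST.Pot

/-! Jumps along grid lines; few jump edges do not belong to full pairs. -/

set_option autoImplicit false

noncomputable section

namespace Pool.Agent.K1H37.ST

open Finset hiding box
open Pool.Agent.K1H64.ST

variable {n : ℕ} {A : Finset (Cube n)}

/-- The value `a · x - c a`. -/
def val (P : Pot n A) (a : Cube n) (x : Fin n → ℤ) : ℝ := (dot a x : ℝ) - P.c a

theorem val_lt (P : Pot n A) (x : Fin n → ℤ) {a : Cube n} (ha : a ∈ A) (h : a ≠ P.T x) :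
    val P a x < val P (P.T x) x := P.best x a ha h

theorem val_le (P : Pot n A) (x : Fin n → ℤ) {a : Cube n} (ha : a ∈ A) :
    val P a x ≤ val P (P.T x) x := by
  by_cases h : a = P.T x
  · rw [h]
  · exact (val_lt P x ha h).le

theorem dot_nb (a : Cube n) (p : Fin n → ℤ) (i : Fin n) (b : Bool) :
    dot a (nb p i b) = dot a p + 2 * (sn (a i) * sn b) := by
  have h := dot_sub a (nb p i b) p i (fun j hj => by simp [nb, Function.update_of_ne hj])
  have h2 : nb p i b i = p i + 2 * sn b := by simp [nb]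
  rw [h2] at h
  linear_combination h

theorem val_nb (P : Pot n A) (a : Cube n) (p : Fin n → ℤ) (i : Fin n) (b : Bool) :
    val P a (nb p i b) = val P a p + 2 * ((sn (a i) : ℝ) * (sn b : ℝ)) := by
  unfold val
  rw [dot_nb]
  push_cast
  ring

theorem sn_mul_self (b : Bool) : (sn b : ℝ) * sn b = 1 := by cases b <;> simp [sn]

theorem sn_mul_ne {a b : Bool} (h : a ≠ b) : (sn a : ℝ) * sn b = -1 := by
  cases a <;> cases b <;> simp_all [sn]

/-- A jump goes up in the direction of the jump. -/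
theorem jump (P : Pot n A) (p : Fin n → ℤ) (i : Fin n) (b : Bool)
    (h : P.T (nb p i b) ≠ P.T p) :
    P.T (nb p i b) i = b ∧ P.T p i ≠ b ∧
      val P (P.T (nb p i b)) p < val P (P.T p) p ∧
      val P (P.T p) p < val P (P.T (nb p i b)) p + 4 := by
  have h1 := val_lt P p (P.mem (nb p i b)) h
  have h2 := val_lt P (nb p i b) (P.mem p) (Ne.symm h)
  rw [val_nb, val_nb] at h2
  by_cases h3 : P.T (nb p i b) i = b
  · by_cases h4 : P.T p i = b
    · rw [h3, h4] at h2
      linarith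
    · refine ⟨h3, h4, h1, ?_⟩
      rw [h3, sn_mul_self, sn_mul_ne h4] at h2
      linarith
  · by_cases h4 : P.T p i = b
    · rw [sn_mul_ne h3, h4, sn_mul_self] at h2
      linarith
    · rw [sn_mul_ne h3, sn_mul_ne h4] at h2
      linarith

theorem dot_sub2 (a : Cube n) (x y : Fin n → ℤ) (l m : Fin n) (hlm : l ≠ m)
    (h : ∀ i, i ≠ l → i ≠ m → x i = y i) :
    dot a x - dot a y = sn (a l) * (x l - y l) + sn (a m) * (x m - y m) := by
  have h1 := dot_sub a x (Function.update x l (y l)) l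
    (fun i hi => by simp [Function.update_of_ne hi])
  have h2 := dot_sub a (Function.update x l (y l)) y m (fun i hi => by
    by_cases hl : i = l
    · rw [hl]; simp
    · rw [Function.update_of_ne hl]; exact h i hl hi)
  simp only [Function.update_self, Function.update_of_ne (Ne.symm hlm)] at h1 h2
  linear_combination h1 + h2

/-- A point of the grid where the first form is in a window and coordinate `l` is fixed. -/
theorem card_S1 {M : ℕ} {a a' : Cube n} {i l : Fin n} (hil : l ≠ i) (hi : a' i ≠ a i) (r : ℝ) (v : ℤ)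
    (S : Finset (Fin n → ℤ)) (hS : S ⊆ grid n M)
    (h : ∀ x ∈ S, x l = v ∧ r < ((dot a' x - dot a x : ℤ) : ℝ) ∧
      ((dot a' x - dot a x : ℤ) : ℝ) < r + 4) : S.card ≤ (2 * M) ^ (n - 2) := by
  have := card_le_of_det (M := M) {l, i} S hS ?_
  · rwa [Finset.card_pair hil] at this
  · intro x hx y hy hxy
    refine eq_of_window hi (fun j hj => ?_) ?_ ?_ (h x hx).2.1 (h x hx).2.2
      (h y hy).2.1 (h y hy).2.2
    · by_cases hjl : j = l
      · rw [hjl, (h x hx).1, (h y hy).1]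
      · exact hxy j (by simp [hjl, hj])
    · exact (mem_box.1 (mem_grid.1 (hS hx) i)).2
    · exact (mem_box.1 (mem_grid.1 (hS hy) i)).2

theorem card_S2_aux {M : ℕ} {a a' a'' : Cube n} {l : Fin n} (hl' : a' l ≠ a l) (hl'' : a'' l = a l)
    (ha'' : a'' ≠ a) (r r' : ℝ) (S : Finset (Fin n → ℤ)) (hS : S ⊆ grid n M)
    (h : ∀ x ∈ S, r < ((dot a' x - dot a x : ℤ) : ℝ) ∧
      ((dot a' x - dot a x : ℤ) : ℝ) < r + 4)
    (h' : ∀ x ∈ S, r' < ((dot a'' x - dot a x : ℤ) : ℝ) ∧
      ((dot a'' x - dot a x : ℤ) : ℝ) < r' + 4) : S.card ≤ (2 * M) ^ (n - 2) := by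
  obtain ⟨m, hm⟩ : ∃ m, a'' m ≠ a m := by
    by_contra hcon
    push Not at hcon
    exact ha'' (funext hcon)
  have hlm : l ≠ m := by
    rintro rfl
    exact hm hl''
  have := card_le_of_det (M := M) {l, m} S hS ?_
  · rwa [Finset.card_pair hlm] at this
  · intro x hx y hy hxy
    have hxy' : ∀ i, i ≠ l → i ≠ m → x i = y i := fun i h1 h2 => hxy i (by simp [h1, h2])
    have hxl := (mem_box.1 (mem_grid.1 (hS hx) l)).2
    have hyl := (mem_box.1 (mem_grid.1 (hS hy) l)).2
    have hxm := (mem_box.1 (mem_grid.1 (hS hx) m)).2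
    have hym := (mem_box.1 (mem_grid.1 (hS hy) m)).2
    -- compare with the point with coordinate `l` of `y`
    have e1 := dot_sub2 a'' x y l m hlm hxy'
    have e2 := dot_sub2 a x y l m hlm hxy'
    rw [hl''] at e1
    have e3 : (dot a'' x - dot a x) - (dot a'' y - dot a y) = 2 * sn (a'' m) * (x m - y m) := by
      have := sn_sub_of_ne hm
      have h4 : (dot a'' x - dot a x) - (dot a'' y - dot a y) =
          (sn (a'' m) - sn (a m)) * (x m - y m) := by linear_combination e1 - e2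
      rw [h4, this]
    have hX := h' x hx
    have hY := h' y hy
    have h5 : ((dot a'' x - dot a x) - (dot a'' y - dot a y) : ℤ) < 4 := by
      have : (((dot a'' x - dot a x) - (dot a'' y - dot a y) : ℤ) : ℝ) < 4 := by
        push_cast at *; linarith [hX.1, hX.2, hY.1, hY.2]
      exact_mod_cast this
    have h6 : (-4 : ℤ) < ((dot a'' x - dot a x) - (dot a'' y - dot a y) : ℤ) := by
      have : ((-4 : ℤ) : ℝ) < (((dot a'' x - dot a x) - (dot a'' y - dot a y) : ℤ) : ℝ) := by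
        push_cast at *; linarith [hX.1, hX.2, hY.1, hY.2]
      exact_mod_cast this
    rw [e3] at h5 h6
    obtain ⟨u, hu⟩ := hxm
    obtain ⟨v, hv⟩ := hym
    have h7 : x m = y m := by
      rcases sn_cases (a'' m) with h8 | h8 <;> rw [h8] at h5 h6 <;> omega
    refine eq_of_window hl' (fun j hj => ?_) hxl hyl (h x hx).1 (h x hx).2 (h y hy).1 (h y hy).2
    by_cases hjm : j = m
    · rw [hjm]; exact h7
    · exact hxy' j hj hjm

theorem card_S2 {M : ℕ} {a a' a'' : Cube n} (ha' : a' ≠ a) (ha'' : a'' ≠ a) (haa : a' ≠ a'')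
    (r r' : ℝ) (S : Finset (Fin n → ℤ)) (hS : S ⊆ grid n M)
    (h : ∀ x ∈ S, r < ((dot a' x - dot a x : ℤ) : ℝ) ∧
      ((dot a' x - dot a x : ℤ) : ℝ) < r + 4)
    (h' : ∀ x ∈ S, r' < ((dot a'' x - dot a x : ℤ) : ℝ) ∧
      ((dot a'' x - dot a x : ℤ) : ℝ) < r' + 4) : S.card ≤ (2 * M) ^ (n - 2) := by
  obtain ⟨l, hl⟩ : ∃ l, a' l ≠ a'' l := by
    by_contra hcon
    push Not at hcon
    exact haa (funext hcon)
  by_cases h1 : a' l = a l
  · refine card_S2_aux (a := a) (a' := a'') (a'' := a') (l := l) ?_ h1 ha' r' r S hS h' h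
    intro h2
    exact hl (by rw [h1, h2])
  · refine card_S2_aux (a := a) (a' := a') (a'' := a'') (l := l) h1 ?_ ha'' r r' S hS h h'
    revert hl h1
    cases a' l <;> cases a'' l <;> cases a l <;> simp

theorem nb_mem {M : ℕ} {p : Fin n → ℤ} {i : Fin n} {b : Bool} (hp : p ∈ grid n M)
    (h : nb p i b ∉ grid n M) : p i = sn b * (2 * M - 1) := by
  by_contra hcon
  apply h
  rw [mem_grid] at hp ⊢
  intro j
  by_cases hj : j = i
  · rw [hj]
    have h1 := mem_box.1 (hp i)
    rw [mem_box]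
    simp only [nb, Function.update_self]
    obtain ⟨⟨h2, h3⟩, u, hu⟩ := h1
    rcases sn_cases b with h4 | h4 <;> rw [h4] at hcon ⊢
    · refine ⟨⟨by omega, by omega⟩, u + 1, by omega⟩
    · refine ⟨⟨by omega, by omega⟩, u - 1, by omega⟩
  · simp only [nb, Function.update_of_ne hj]
    exact hp j

/-- What happens at a jump edge which is not full. -/
theorem not_full (P : Pot n A) (M : ℕ) (p : Fin n → ℤ) (i : Fin n) (b : Bool)
    (hp : p ∈ grid n M) (hq : nb p i b ∈ grid n M) (h : P.T (nb p i b) ≠ P.T p)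
    (hnf : ¬ P.Full M p (P.T (nb p i b))) :
    (∃ l, l ≠ i ∧ P.T p i ≠ P.T (nb p i b) i ∧ p l = sn (P.T (nb p i b) l) * (2 * M - 1)) ∨
    (∃ a'' ∈ A, a'' ≠ P.T (nb p i b) ∧ P.T p ≠ a'' ∧
      val P (P.T (nb p i b)) p < val P a'' p ∧
      val P a'' p < val P (P.T (nb p i b)) p + 4) := by
  obtain ⟨h1, h2, h3, h4⟩ := jump P p i b h
  set a := P.T (nb p i b) with ha
  have h5 : ∃ l, a l ≠ P.T p l ∧ ¬ (nb p l (a l) ∈ grid n M ∧ P.T (nb p l (a l)) = a) := by
    by_contra hcon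
    push Not at hcon
    exact hnf ⟨h, fun l hl => hcon l hl⟩
  obtain ⟨l, hl, hl2⟩ := h5
  by_cases h6 : nb p l (a l) ∈ grid n M
  · right
    have h7 : P.T (nb p l (a l)) ≠ a := fun h8 => hl2 ⟨h6, h8⟩
    have h8 := val_lt P (nb p l (a l)) (P.mem (nb p i b)) (Ne.symm h7)
    rw [← ha, val_nb, val_nb, sn_mul_self] at h8
    have h9 := val_le P p (P.mem (nb p l (a l)))
    by_cases h10 : P.T (nb p l (a l)) l = a l
    · rw [h10, sn_mul_self] at h8
      refine ⟨P.T (nb p l (a l)), P.mem _, h7, ?_, by linarith, by linarith⟩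
      intro h11
      rw [← h11] at h10
      exact hl h10.symm
    · rw [sn_mul_ne h10] at h8
      linarith
  · left
    refine ⟨l, ?_, ?_, nb_mem hp h6⟩
    · rintro rfl
      rw [h1] at h6
      exact h6 hq
    · rw [h1]; exact h2

theorem t_NF : S_NF := by
  intro n hn A M hM P
  classical
  -- the two families
  let S1 : Fin n → (Cube n × Cube n × Fin n) → Finset (Fin n → ℤ) := fun i t =>
    (grid n M).filter (fun p => t.2.2 ≠ i ∧ t.2.1 i ≠ t.1 i ∧ p t.2.2 = sn (t.1 t.2.2) * (2 * M - 1) ∧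
      val P t.1 p < val P t.2.1 p ∧ val P t.2.1 p < val P t.1 p + 4)
  let S2 : (Cube n × Cube n × Cube n) → Finset (Fin n → ℤ) := fun t =>
    (grid n M).filter (fun p => t.2.1 ≠ t.1 ∧ t.2.2 ≠ t.1 ∧ t.2.1 ≠ t.2.2 ∧
      (val P t.1 p < val P t.2.1 p ∧ val P t.2.1 p < val P t.1 p + 4) ∧
      (val P t.1 p < val P t.2.2 p ∧ val P t.2.2 p < val P t.1 p + 4))
  have hwin : ∀ (a a' : Cube n) (p : Fin n → ℤ), val P a p < val P a' p →
      val P a' p < val P a p + 4 → (P.c a' - P.c a) < ((dot a' p - dot a p : ℤ) : ℝ) ∧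
      ((dot a' p - dot a p : ℤ) : ℝ) < (P.c a' - P.c a) + 4 := by
    intro a a' p h1 h2
    unfold val at h1 h2
    push_cast
    constructor <;> linarith
  have hS1 : ∀ i t, (S1 i t).card ≤ (2 * M) ^ (n - 2) := by
    rintro i ⟨a, a', l⟩
    by_cases h : l ≠ i ∧ a' i ≠ a i
    · refine card_S1 (a := a) (a' := a') h.1 h.2 (P.c a' - P.c a) (sn (a l) * (2 * M - 1)) _
        (filter_subset _ _) ?_
      intro x hx
      simp only [S1, mem_filter] at hx
      exact ⟨hx.2.2.2.1, hwin a a' x hx.2.2.2.2.1 hx.2.2.2.2.2⟩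
    · have : S1 i (a, a', l) = ∅ := by
        rw [Finset.eq_empty_iff_forall_notMem]
        intro x hx
        simp only [S1, mem_filter] at hx
        exact h ⟨hx.2.1, hx.2.2.1⟩
      rw [this]; simp
  have hS2 : ∀ t, (S2 t).card ≤ (2 * M) ^ (n - 2) := by
    rintro ⟨a, a', a''⟩
    by_cases h : a' ≠ a ∧ a'' ≠ a ∧ a' ≠ a''
    · refine card_S2 (a := a) (a' := a') (a'' := a'') h.1 h.2.1 h.2.2 (P.c a' - P.c a)
        (P.c a'' - P.c a) _ (filter_subset _ _) ?_ ?_
      · intro x hx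
        simp only [S2, mem_filter] at hx
        exact hwin a a' x hx.2.2.2.2.1.1 hx.2.2.2.2.1.2
      · intro x hx
        simp only [S2, mem_filter] at hx
        exact hwin a a'' x hx.2.2.2.2.2.1 hx.2.2.2.2.2.2
    · have : S2 (a, a', a'') = ∅ := by
        rw [Finset.eq_empty_iff_forall_notMem]
        intro x hx
        simp only [S2, mem_filter] at hx
        exact h ⟨hx.2.1, hx.2.2.1, hx.2.2.2.1⟩
      rw [this]; simp
  let U : Fin n → Finset (Fin n → ℤ) := fun i =>
    ((A ×ˢ (A ×ˢ univ)).biUnion (S1 i)) ∪ ((A ×ˢ (A ×ˢ A)).biUnion S2)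
  have hU : ∀ i, (U i).card ≤ (n * A.card ^ 2 + A.card ^ 3) * (2 * M) ^ (n - 2) := by
    intro i
    refine (card_union_le _ _).trans ?_
    have h1 := card_biUnion_le_card_mul (A ×ˢ (A ×ˢ (univ : Finset (Fin n)))) (S1 i) _
      (fun t _ => hS1 i t)
    have h2 := card_biUnion_le_card_mul (A ×ˢ (A ×ˢ A)) S2 _ (fun t _ => hS2 t)
    simp only [card_product, card_univ, Fintype.card_fin] at h1 h2
    calc _ ≤ A.card * (A.card * n) * (2 * M) ^ (n - 2) + A.card * (A.card * A.card) * (2 * M) ^ (n - 2) :=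
          Nat.add_le_add h1 h2
      _ = _ := by ring
  have hsub : ((P.JE M).filter (fun t : (Fin n → ℤ) × Fin n × Bool =>
      ¬ (P.Full M t.1 (P.T (nb t.1 t.2.1 t.2.2))))) ⊆
      (univ : Finset (Fin n × Bool)).biUnion (fun s => (U s.1).image (fun p => (p, s.1, s.2))) := by
    rintro ⟨p, i, b⟩ ht
    simp only [mem_filter, Pot.JE, mem_product, mem_univ, and_true] at ht
    obtain ⟨⟨hp, hq, hne⟩, hnf⟩ := ht
    simp only [mem_biUnion, mem_image, Prod.mk.injEq]
    refine ⟨(i, b), mem_univ _, p, ?_, rfl, rfl, rfl⟩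
    obtain ⟨h1, h2, h3, h4⟩ := jump P p i b hne
    simp only [U, mem_union, mem_biUnion, mem_product]
    rcases not_full P M p i b hp hq hne hnf with ⟨l, hl1, hl2, hl3⟩ | ⟨a'', ha'', k1, k2, k3, k4⟩
    · left
      refine ⟨(P.T (nb p i b), P.T p, l), ⟨P.mem _, P.mem _, mem_univ _⟩, ?_⟩
      simp only [S1, mem_filter]
      exact ⟨hp, hl1, hl2, hl3, h3, h4⟩
    · right
      refine ⟨(P.T (nb p i b), P.T p, a''), ⟨P.mem _, P.mem _, ha''⟩, ?_⟩
      simp only [S2, mem_filter]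
      exact ⟨hp, Ne.symm hne, k1, k2, ⟨h3, h4⟩, k3, k4⟩
  have hfin : ((P.JE M).filter (fun t : (Fin n → ℤ) × Fin n × Bool =>
      ¬ (P.Full M t.1 (P.T (nb t.1 t.2.1 t.2.2))))).card ≤
      (n * 2) * ((n * A.card ^ 2 + A.card ^ 3) * (2 * M) ^ (n - 2)) := by
    refine (card_le_card hsub).trans ?_
    have := card_biUnion_le_card_mul (univ : Finset (Fin n × Bool))
      (fun s => (U s.1).image (fun p => (p, s.1, s.2))) _
      (fun s _ => (card_image_le).trans (hU s.1))
    simpa using this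
  have hfin' : ((((P.JE M).filter (fun t : (Fin n → ℤ) × Fin n × Bool =>
      ¬ (P.Full M t.1 (P.T (nb t.1 t.2.1 t.2.2))))).card : ℕ) : ℝ) ≤
      (((n * 2) * ((n * A.card ^ 2 + A.card ^ 3) * (2 * M) ^ (n - 2)) : ℕ) : ℝ) := by
    exact_mod_cast hfin
  refine le_trans (le_of_eq ?_) (hfin'.trans (le_of_eq ?_))
  · congr!
  · push_cast; ring

end Pool.Agent.K1H37.ST
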