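import Pool.Agent.K1H37.ST.Grid

/-! Existence of potentials with nearly equal cells. -/

set_option autoImplicit false

noncomputable section

namespace Pool.Agent.K1H37.ST

open Finset hiding box
open Pool.Agent.K1H64.ST

/-- On a line, a window of length `4` contains at most one grid point. -/
theorem eq_of_window {n : ℕ} {a b : Cube n} {l : Fin n} (hl : a l ≠ b l) {x y : Fin n → ℤ}
    (hxy : ∀ i, i ≠ l → x i = y i) (hx1 : Odd (x l)) (hy1 : Odd (y l)) {r : ℝ}
    (hx : r < ((dot a x - dot b x : ℤ) : ℝ)) (hx' : ((dot a x - dot b x : ℤ) : ℝ) < r + 4)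
    (hy : r < ((dot a y - dot b y : ℤ) : ℝ)) (hy' : ((dot a y - dot b y : ℤ) : ℝ) < r + 4) :
    x = y := by
  have h1 := dot_sub a x y l hxy
  have h2 := dot_sub b x y l hxy
  have h3 : (dot a x - dot b x) - (dot a y - dot b y) = 2 * sn (a l) * (x l - y l) := by
    have := sn_sub_of_ne hl
    have h4 : (dot a x - dot b x) - (dot a y - dot b y) = (sn (a l) - sn (b l)) * (x l - y l) := by
      linear_combination h1 - h2
    rw [h4, this]
  have h5 : ((dot a x - dot b x) - (dot a y - dot b y) : ℤ) < 4 := by
    have : (((dot a x - dot b x) - (dot a y - dot b y) : ℤ) : ℝ) < 4 := by push_cast at *; linarith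
    exact_mod_cast this
  have h6 : (-4 : ℤ) < ((dot a x - dot b x) - (dot a y - dot b y) : ℤ) := by
    have : ((-4 : ℤ) : ℝ) < (((dot a x - dot b x) - (dot a y - dot b y) : ℤ) : ℝ) := by
      push_cast at *; linarith
    exact_mod_cast this
  rw [h3] at h5 h6
  obtain ⟨u, hu⟩ := hx1
  obtain ⟨v, hv⟩ := hy1
  have h7 : x l = y l := by
    rcases sn_cases (a l) with h | h <;> rw [h] at h5 h6 <;> omega
  funext i
  by_cases hi : i = l
  · rw [hi]; exact h7
  · exact hxy i hi

theorem card_window {n M : ℕ} {a b : Cube n} (hab : a ≠ b) (r : ℝ) (S : Finset (Fin n → ℤ))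
    (hS : S ⊆ grid n M) (h : ∀ x ∈ S, r < ((dot a x - dot b x : ℤ) : ℝ) ∧
      ((dot a x - dot b x : ℤ) : ℝ) < r + 4) : S.card ≤ (2 * M) ^ (n - 1) := by
  obtain ⟨l, hl⟩ : ∃ l, a l ≠ b l := by
    by_contra hcon
    push Not at hcon
    exact hab (funext hcon)
  have := card_le_of_det (M := M) {l} S hS ?_
  · simpa using this
  · intro x hx y hy hxy
    refine eq_of_window hl (fun i hi => hxy i (by simpa using hi)) ?_ ?_ (h x hx).1 (h x hx).2
      (h y hy).1 (h y hy).2
    · exact (mem_box.1 (mem_grid.1 (hS hx) l)).2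
    · exact (mem_box.1 (mem_grid.1 (hS hy) l)).2

section

variable {n : ℕ} (A : Finset (Cube n)) (hA : A.Nonempty) (K : ℤ) (M : ℕ)

/-- The heights. -/
def V (w : Cube n → ℤ) (a : Cube n) (x : Fin n → ℤ) : ℤ := K * dot a x - w a

/-- The maximum. -/
def mx (w : Cube n → ℤ) (x : Fin n → ℤ) : ℤ := A.sup' hA (fun a => V K w a x)

/-- The functional. -/
def Phi (w : Cube n → ℤ) : ℤ := ∑ x ∈ grid n M, mx A hA K w x + 2 * M ^ n * ∑ a ∈ A, w a

theorem le_mx (w : Cube n → ℤ) (x : Fin n → ℤ) {a : Cube n} (ha : a ∈ A) :
    V K w a x ≤ mx A hA K w x := Finset.le_sup' (fun a => V K w a x) ha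

theorem Phi_lower (h2 : 2 * A.card = 2 ^ n) (w : Cube n → ℤ) :
    -|∑ x ∈ grid n M, K * ∑ a ∈ A, dot a x| ≤ Phi A hA K M w := by
  set Z := ∑ x ∈ grid n M, K * ∑ a ∈ A, dot a x with hZ
  have hc : (((grid n M).card : ℕ) : ℤ) = A.card * (2 * M ^ n) := by
    rw [card_grid, mul_pow, ← h2]; push_cast; ring
  have h3 : Z ≤ A.card * Phi A hA K M w := by
    unfold Phi
    have h4 : ∀ x ∈ grid n M, K * ∑ a ∈ A, dot a x - ∑ a ∈ A, w a ≤
        A.card * mx A hA K w x := by
      intro x _
      have : ∑ a ∈ A, V K w a x ≤ ∑ a ∈ A, mx A hA K w x :=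
        Finset.sum_le_sum fun a ha => le_mx A hA K w x ha
      rw [Finset.sum_const, nsmul_eq_mul] at this
      refine le_trans (le_of_eq ?_) this
      simp only [V, Finset.sum_sub_distrib, Finset.mul_sum]
    have h5 := Finset.sum_le_sum h4
    rw [Finset.sum_sub_distrib, Finset.sum_const, nsmul_eq_mul, hc, ← hZ] at h5
    have h6 : ∑ x ∈ grid n M, (A.card : ℤ) * mx A hA K w x =
        A.card * ∑ x ∈ grid n M, mx A hA K w x := by rw [Finset.mul_sum]
    rw [h6] at h5
    rw [mul_add]
    linarith
  have hpos : (1 : ℤ) ≤ A.card := by exact_mod_cast hA.card_pos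
  by_contra hcon
  push Not at hcon
  have h6 : Phi A hA K M w ≤ 0 := le_of_lt (lt_of_lt_of_le hcon (by simp))
  have h7 : (A.card : ℤ) * Phi A hA K M w ≤ 1 * Phi A hA K M w :=
    mul_le_mul_of_nonpos_right hpos h6
  have h8 := neg_abs_le Z
  linarith

end

theorem t_POT : S_POT := by
  intro n hn A h2 δ hδ
  have hApos : 0 < A.card := by
    have : 0 < 2 ^ n := by positivity
    omega
  have hA : A.Nonempty := Finset.card_pos.1 hApos
  -- the residues
  let g : Cube n → ℤ := fun a => ((Fintype.equivFin (Cube n) a : ℕ) : ℤ)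
  let K : ℤ := (Fintype.card (Cube n) : ℤ)
  have hK : 0 < K := by
    have : 0 < Fintype.card (Cube n) := Fintype.card_pos
    show (0 : ℤ) < ((Fintype.card (Cube n) : ℕ) : ℤ)
    exact_mod_cast this
  have hg0 : ∀ a, 0 ≤ g a := fun a => by positivity
  have hgK : ∀ a, g a < K := fun a => by
    have := (Fintype.equivFin (Cube n) a).2
    show ((Fintype.equivFin (Cube n) a : ℕ) : ℤ) < ((Fintype.card (Cube n) : ℕ) : ℤ)
    exact_mod_cast this
  have hginj : ∀ a b, g a = g b → a = b := by
    intro a b h
    have : (Fintype.equivFin (Cube n) a : ℕ) = (Fintype.equivFin (Cube n) b : ℕ) := by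
      have h' : ((Fintype.equivFin (Cube n) a : ℕ) : ℤ) = ((Fintype.equivFin (Cube n) b : ℕ) : ℤ) := h
      exact_mod_cast h'
    exact (Fintype.equivFin (Cube n)).injective (Fin.ext this)
  refine ⟨⌈(A.card : ℝ) * 2 ^ (n - 1) / (2 * δ)⌉₊, ?_⟩
  intro M hM
  -- the minimiser
  let w : (Cube n → ℤ) → Cube n → ℤ := fun k a => K * k a + g a
  obtain ⟨v, ⟨k, hk⟩, hmin⟩ := Int.exists_least_of_bdd
    (P := fun z => ∃ k, Phi A hA K M (w k) = z)
    ⟨_, by rintro z ⟨k, rfl⟩; exact Phi_lower A hA K M h2 (w k)⟩ ⟨_, ⟨fun _ => 0, rfl⟩⟩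
  have hmin' : ∀ k', Phi A hA K M (w k) ≤ Phi A hA K M (w k') := by
    intro k'
    rw [hk]
    exact hmin _ ⟨k', rfl⟩
  have hne : ∀ a b x, a ≠ b → V K (w k) a x ≠ V K (w k) b x := by
    intro a b x hab h
    apply hab
    apply hginj
    have h3 : g a - g b = K * (dot a x - dot b x - (k a - k b)) := by
      simp only [V, w] at h
      linear_combination -h
    have h4 : |g a - g b| < K := by
      rw [abs_lt]
      constructor <;> linarith [hg0 a, hg0 b, hgK a, hgK b]
    rw [h3, abs_mul, abs_of_pos hK] at h4
    have h5 : |dot a x - dot b x - (k a - k b)| < 1 := by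
      by_contra hcon
      push Not at hcon
      nlinarith
    have h6 : dot a x - dot b x - (k a - k b) = 0 := by
      rwa [Int.abs_lt_one_iff] at h5
    rw [h6, mul_zero] at h3
    linarith
  have hT : ∀ x, ∃ a ∈ A, mx A hA K (w k) x = V K (w k) a x := fun x =>
    Finset.exists_mem_eq_sup' hA (fun a => V K (w k) a x)
  choose T hTA hTmx using hT
  have hbest : ∀ x, ∀ a ∈ A, a ≠ T x → V K (w k) a x < V K (w k) (T x) x := by
    intro x a ha hne'
    refine lt_of_le_of_ne ?_ (hne a (T x) x hne')
    rw [← hTmx x]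
    exact le_mx A hA K (w k) x ha
  have hKr : (0 : ℝ) < (K : ℝ) := by exact_mod_cast hK
  let mean : ℝ := (∑ a ∈ A, (w k a : ℝ) / K) / A.card
  let P : Pot n A :=
    { c := fun a => (w k a : ℝ) / K - mean
      T := T
      mem := hTA
      best := by
        intro x a ha hne'
        have := hbest x a ha hne'
        have h3 : ((V K (w k) a x : ℤ) : ℝ) < ((V K (w k) (T x) x : ℤ) : ℝ) := by exact_mod_cast this
        simp only [V] at h3
        push_cast at h3
        have h4 : (dot a x : ℝ) - (w k a : ℝ) / K < (dot (T x) x : ℝ) - (w k (T x) : ℝ) / K := by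
          have e1 : (dot a x : ℝ) - (w k a : ℝ) / K = (K * dot a x - w k a) / K := by
            field_simp
          have e2 : (dot (T x) x : ℝ) - (w k (T x) : ℝ) / K = (K * dot (T x) x - w k (T x)) / K := by
            field_simp
          rw [e1, e2]
          exact div_lt_div_of_pos_right h3 hKr
        linarith
      norm := by
        rw [Finset.sum_sub_distrib, Finset.sum_const, nsmul_eq_mul]
        simp only [mean]
        have : (A.card : ℝ) ≠ 0 := by exact_mod_cast hApos.ne'
        field_simp
        ring }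
  refine ⟨P, ?_⟩
  -- exceptional sets
  have hE : ∀ a ∈ A, (((grid n M).filter (fun x => ∃ b ∈ A, b ≠ a ∧
      |V K (w k) a x - V K (w k) b x| < K)).card : ℝ) ≤ A.card * (2 * M) ^ (n - 1) := by
    intro a ha
    have h3 : ((grid n M).filter (fun x => ∃ b ∈ A, b ≠ a ∧
      |V K (w k) a x - V K (w k) b x| < K)) ⊆ A.biUnion (fun b => (grid n M).filter (fun x =>
        b ≠ a ∧ |V K (w k) a x - V K (w k) b x| < K)) := by
      intro x hx
      simp only [mem_filter, mem_biUnion] at hx ⊢
      obtain ⟨hx1, b, hb, hb2⟩ := hx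
      exact ⟨b, hb, hx1, hb2⟩
    have h4 : ((grid n M).filter (fun x => ∃ b ∈ A, b ≠ a ∧
      |V K (w k) a x - V K (w k) b x| < K)).card ≤ A.card * (2 * M) ^ (n - 1) := by
      refine (card_le_card h3).trans (card_biUnion_le_card_mul _ _ _ ?_)
      intro b _
      by_cases hba : b = a
      · simp [hba]
      · refine card_window (a := a) (b := b) (Ne.symm hba)
          (((w k a - w k b : ℤ) : ℝ) / K - 1) _ (filter_subset _ _) ?_
        intro x hx
        simp only [mem_filter] at hx
        obtain ⟨_, _, h5⟩ := hx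
        rw [abs_lt] at h5
        have h6 : -(K : ℝ) < ((V K (w k) a x - V K (w k) b x : ℤ) : ℝ) := by exact_mod_cast h5.1
        have h7 : ((V K (w k) a x - V K (w k) b x : ℤ) : ℝ) < (K : ℝ) := by exact_mod_cast h5.2
        have h8 : ((V K (w k) a x - V K (w k) b x : ℤ) : ℝ) =
            K * ((dot a x - dot b x : ℤ) : ℝ) - ((w k a - w k b : ℤ) : ℝ) := by
          simp only [V]; push_cast; ring
        rw [h8] at h6 h7
        have h9 : ((w k a - w k b : ℤ) : ℝ) = K * (((w k a - w k b : ℤ) : ℝ) / K) := by
          field_simp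
        rw [h9] at h6 h7
        constructor
        · by_contra hcon
          push Not at hcon
          nlinarith
        · by_contra hcon
          push Not at hcon
          nlinarith
    exact_mod_cast h4
  have hMδ : (A.card : ℝ) * (2 * M) ^ (n - 1) ≤ δ * (2 * (M : ℝ) ^ n) := by
    have h3 : (A.card : ℝ) * 2 ^ (n - 1) / (2 * δ) ≤ M := (Nat.le_ceil _).trans (by exact_mod_cast hM)
    rw [div_le_iff₀ (by positivity)] at h3
    obtain ⟨m, rfl⟩ : ∃ m, n = m + 1 := ⟨n - 1, by omega⟩
    simp only [Nat.add_sub_cancel] at h3 ⊢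
    rw [mul_pow, pow_succ]
    have : (0 : ℝ) ≤ (M : ℝ) ^ m := by positivity
    nlinarith
  intro a ha
  have hE' := hE a ha
  set E := (grid n M).filter (fun x => ∃ b ∈ A, b ≠ a ∧
      |V K (w k) a x - V K (w k) b x| < K) with hEdef
  -- upper bound
  have hup : ((P.cell M a).card : ℤ) ≤ 2 * M ^ n + E.card := by
    let G := (grid n M).filter (fun x => ∀ b ∈ A, b ≠ a → V K (w k) b x ≤ V K (w k) a x - K)
    have h3 : P.cell M a ⊆ G ∪ E := by
      intro x hx
      simp only [Pot.cell, mem_filter] at hx
      simp only [G, E, mem_union, mem_filter]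
      by_cases h4 : ∀ b ∈ A, b ≠ a → V K (w k) b x ≤ V K (w k) a x - K
      · exact Or.inl ⟨hx.1, h4⟩
      · right
        push Not at h4
        obtain ⟨b, hb, hba, h5⟩ := h4
        refine ⟨hx.1, b, hb, hba, ?_⟩
        have h6 := hbest x b hb (by rw [show T x = a from hx.2]; exact hba)
        rw [show T x = a from hx.2] at h6
        rw [abs_lt]; constructor <;> linarith
    have h4 : (G.card : ℤ) ≤ 2 * M ^ n := by
      let k' : Cube n → ℤ := Function.update k a (k a + 1)
      have hw' : ∀ b, b ≠ a → w k' b = w k b := by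
        intro b hb
        simp [w, k', Function.update_of_ne hb]
      have hw'a : w k' a = w k a + K := by
        simp [w, k']; ring
      have h5 : ∀ x ∈ grid n M, mx A hA K (w k') x ≤
          mx A hA K (w k) x - (if x ∈ G then K else 0) := by
        intro x hx
        refine Finset.sup'_le hA _ ?_
        intro b hb
        by_cases hba : b = a
        · rw [hba]
          have h6 := le_mx A hA K (w k) x ha
          have h7 : V K (w k') a x = V K (w k) a x - K := by
            simp only [V, hw'a]; ring
          rw [h7]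
          split_ifs <;> linarith
        · have h7 : V K (w k') b x = V K (w k) b x := by simp only [V, hw' b hba]
          rw [h7]
          split_ifs with hG
          · have h8 := (mem_filter.1 hG).2 b hb hba
            have h6 := le_mx A hA K (w k) x ha
            linarith
          · have h6 := le_mx A hA K (w k) x hb
            linarith
      have h6 := Finset.sum_le_sum h5
      rw [Finset.sum_sub_distrib, Finset.sum_ite_mem,
        Finset.inter_eq_right.2 (filter_subset _ _), Finset.sum_const, nsmul_eq_mul] at h6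
      have h7 := hmin' k'
      unfold Phi at h7
      have h8 : ∑ b ∈ A, w k' b = ∑ b ∈ A, w k b + K := by
        rw [← Finset.add_sum_erase A (w k') ha, ← Finset.add_sum_erase A (w k) ha, hw'a]
        rw [Finset.sum_congr rfl (fun b hb => hw' b (Finset.ne_of_mem_erase hb))]
        ring
      rw [h8] at h7
      have h9 : (G.card : ℤ) * K ≤ 2 * M ^ n * K := by linarith
      exact le_of_mul_le_mul_right h9 hK
    have h5 : ((P.cell M a).card : ℤ) ≤ G.card + E.card := by
      exact_mod_cast (card_le_card h3).trans (card_union_le _ _)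
    linarith
  have hlow : (2 * M ^ n : ℤ) ≤ (P.cell M a).card + E.card := by
    let H := (grid n M).filter (fun x => mx A hA K (w k) x < V K (w k) a x + K)
    have h3 : H ⊆ P.cell M a ∪ E := by
      intro x hx
      simp only [H, mem_filter] at hx
      simp only [mem_union, Pot.cell, mem_filter]
      by_cases h4 : T x = a
      · exact Or.inl ⟨hx.1, h4⟩
      · right
        refine mem_filter.2 ⟨hx.1, T x, hTA x, h4, ?_⟩
        have h5 := hbest x a ha (Ne.symm h4)
        rw [hTmx x] at hx
        rw [abs_lt]; constructor <;> linarith [hx.2]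
    have h4 : (2 * M ^ n : ℤ) ≤ H.card := by
      let k' : Cube n → ℤ := Function.update k a (k a - 1)
      have hw' : ∀ b, b ≠ a → w k' b = w k b := by
        intro b hb
        simp [w, k', Function.update_of_ne hb]
      have hw'a : w k' a = w k a - K := by
        simp [w, k']; ring
      have h5 : ∀ x ∈ grid n M, mx A hA K (w k') x ≤
          mx A hA K (w k) x + (if x ∈ H then K else 0) := by
        intro x hx
        refine Finset.sup'_le hA _ ?_
        intro b hb
        by_cases hba : b = a
        · rw [hba]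
          have h6 := le_mx A hA K (w k) x ha
          have h7 : V K (w k') a x = V K (w k) a x + K := by
            simp only [V, hw'a]; ring
          rw [h7]
          split_ifs with hH
          · linarith
          · simp only [H, mem_filter, not_and, not_lt] at hH
            have := hH hx
            linarith
        · have h7 : V K (w k') b x = V K (w k) b x := by simp only [V, hw' b hba]
          rw [h7]
          have h6 := le_mx A hA K (w k) x hb
          split_ifs <;> linarith
      have h6 := Finset.sum_le_sum h5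
      rw [Finset.sum_add_distrib, Finset.sum_ite_mem,
        Finset.inter_eq_right.2 (filter_subset _ _), Finset.sum_const, nsmul_eq_mul] at h6
      have h7 := hmin' k'
      unfold Phi at h7
      have h8 : ∑ b ∈ A, w k' b = ∑ b ∈ A, w k b - K := by
        rw [← Finset.add_sum_erase A (w k') ha, ← Finset.add_sum_erase A (w k) ha, hw'a]
        rw [Finset.sum_congr rfl (fun b hb => hw' b (Finset.ne_of_mem_erase hb))]
        ring
      rw [h8] at h7
      have h9 : 2 * M ^ n * K ≤ (H.card : ℤ) * K := by linarith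
      exact le_of_mul_le_mul_right h9 hK
    have h5 : (H.card : ℤ) ≤ (P.cell M a).card + E.card := by
      exact_mod_cast (card_le_card h3).trans (card_union_le _ _)
    linarith
  have hup' : ((P.cell M a).card : ℝ) ≤ 2 * (M : ℝ) ^ n + E.card := by exact_mod_cast hup
  have hlow' : 2 * (M : ℝ) ^ n ≤ ((P.cell M a).card : ℝ) + E.card := by exact_mod_cast hlow
  constructor <;> linarith

end Pool.Agent.K1H37.ST
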