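import Pool.Agent.K1H64.ST.Defs

/-! Counting in the grid. -/

set_option autoImplicit false

noncomputable section

namespace Pool.Agent.K1H37.ST

open Finset hiding box
open Pool.Agent.K1H64.ST

theorem box_eq (M : ℕ) :
    box M = (range (2 * M)).image (fun j : ℕ => 2 * (j : ℤ) + 1 - 2 * M) := by
  ext t
  simp only [box, mem_filter, mem_Icc, mem_image, mem_range]
  constructor
  · rintro ⟨⟨h1, h2⟩, ⟨r, hr⟩⟩
    refine ⟨(r + M).toNat, ?_, ?_⟩
    · omega
    · omega
  · rintro ⟨j, hj, rfl⟩
    refine ⟨⟨by omega, by omega⟩, ⟨j - M, by ring⟩⟩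

theorem card_box (M : ℕ) : (box M).card = 2 * M := by
  rw [box_eq, card_image_of_injective, card_range]
  intro a b h
  simp only at h
  omega

theorem mem_box {M : ℕ} {t : ℤ} : t ∈ box M ↔ (1 - 2 * (M : ℤ) ≤ t ∧ t ≤ 2 * M - 1) ∧ Odd t := by
  simp [box]

theorem mem_grid {n M : ℕ} {x : Fin n → ℤ} : x ∈ grid n M ↔ ∀ i, x i ∈ box M := by
  simp [grid]

theorem card_grid (n M : ℕ) : (grid n M).card = (2 * M) ^ n := by
  simp [grid, Fintype.card_piFinset, card_box]

/-- A set of grid points determined by the coordinates outside `J`. -/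
theorem card_le_of_det {n M : ℕ} (J : Finset (Fin n)) (S : Finset (Fin n → ℤ))
    (hS : S ⊆ grid n M) (h : ∀ x ∈ S, ∀ y ∈ S, (∀ i, i ∉ J → x i = y i) → x = y) :
    S.card ≤ (2 * M) ^ (n - J.card) := by
  have h1 := card_le_card_of_injOn (s := S)
    (t := Fintype.piFinset (fun i => if i ∈ J then ({0} : Finset ℤ) else box M))
    (fun x i => if i ∈ J then 0 else x i) ?_ ?_
  · refine h1.trans (le_of_eq ?_)
    rw [Fintype.card_piFinset]
    have : ∀ i, (if i ∈ J then ({0} : Finset ℤ) else box M).card = if i ∈ J then 1 else 2 * M := by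
      intro i; split_ifs <;> simp [card_box]
    simp only [this]
    rw [Finset.prod_ite]
    simp only [prod_const_one, one_mul, prod_const]
    congr 1
    have : (univ.filter (fun i => i ∉ J)) = Jᶜ := by ext; simp
    rw [this, card_compl, Fintype.card_fin]
  · intro x hx
    simp only [Finset.mem_coe, Fintype.mem_piFinset]
    intro i
    split_ifs with hi
    · simp
    · exact mem_grid.1 (hS hx) i
  · intro x hx y hy hxy
    apply h x hx y hy
    intro i hi
    have := congrFun hxy i
    simpa [hi] using this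

theorem dot_sub {n : ℕ} (a : Cube n) (x y : Fin n → ℤ) (l : Fin n) (h : ∀ i, i ≠ l → x i = y i) :
    dot a x - dot a y = sn (a l) * (x l - y l) := by
  unfold dot
  rw [← Finset.sum_sub_distrib, Finset.sum_eq_single l]
  · ring
  · intro i _ hi
    rw [h i hi]; ring
  · simp

theorem sn_sub_of_ne {a b : Bool} (h : a ≠ b) : sn a - sn b = 2 * sn a := by
  cases a <;> cases b <;> simp_all [sn]

theorem sn_cases (a : Bool) : sn a = 1 ∨ sn a = -1 := by
  cases a <;> simp [sn]

end Pool.Agent.K1H37.ST
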