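import Pool.Agent.K1H37.ST.Prob

/-! The law of the random map at one and at two points. -/

set_option autoImplicit false

noncomputable section

namespace Pool.Agent.K1H37.ST

open Finset hiding box
open Pool.Agent.K1H64.ST

variable {n N cm : ℕ}

/-- The seed of a point, as a function of the randomness it sees. -/
def seedAux (cl : Cube n → Fin N → ℕ) (s : Cube n) (r : Fin N) (o : Fin cm → Equiv.Perm (Fin N)) :
    Fin N :=
  if h : cl s r < cm then
    fstσ (o ⟨cl s r, h⟩) (univ.filter (fun ω => cl s ω = cl s r)) r else r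

theorem seed_eq (cl : Cube n → Fin N → ℕ) (L : Cube n → Cube n) (B : ℕ → Finset (Fin n))
    (π : Equiv.Perm (Fin n)) (R : Rnd n N cm) (x : Cube n) :
    seed cl L B π R x = seedAux cl (pos L π x) (R.1 (msk (B 0) x))
      (fun c => R.2 c (msk (B c) x)) := rfl

/-- The event at one point, as a function of the randomness it sees. -/
def ev (T : Cube n → Fin N → Cube (n + 1)) (cl : Cube n → Fin N → ℕ) (s : Cube n)
    (z : Cube (n + 1)) (r : Fin N) (o : Fin cm → Equiv.Perm (Fin N)) : Prop :=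
  gd cl cm s (cl s r) ∧ T s (seedAux cl s r o) = z

theorem ev_iff (T : Cube n → Fin N → Cube (n + 1)) (cl : Cube n → Fin N → ℕ)
    (L : Cube n → Cube n) (B : ℕ → Finset (Fin n))
    (π : Equiv.Perm (Fin n)) (R : Rnd n N cm) (x : Cube n) (z : Cube (n + 1)) :
    (good cl L B π R x ∧ FF T cl L B π R x = z) ↔ ev T cl (pos L π x) z (R.1 (msk (B 0) x))
      (fun c => R.2 c (msk (B c) x)) := Iff.rfl

theorem t_INDEP : S_INDEP := by
  intro n N cm T cl L B π hN x y hxy z w
  classical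
  let mix : Rnd n N cm → Rnd n N cm → Rnd n N cm := fun P Q =>
    (fun m => if m = msk (B 0) x then P.1 m else Q.1 m,
      fun c m => if m = msk (B c) x then P.2 c m else Q.2 c m)
  have hmix : ∀ P Q, mix (mix P Q) (mix Q P) = P := by
    intro P Q
    ext1
    · funext m
      simp only [mix]
      split_ifs <;> rfl
    · funext c m
      simp only [mix]
      split_ifs <;> rfl
  have h := card_indep_of_mix mix hmix
    (fun R => good cl L B π R x ∧ FF T cl L B π R x = z)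
    (fun R => good cl L B π R y ∧ FF T cl L B π R y = w) ?_ ?_
  · have hNe : Nonempty (Fin N) := ⟨⟨0, hN⟩⟩
    have h2 : ((univ.filter (fun R : Rnd n N cm => (good cl L B π R x ∧ FF T cl L B π R x = z) ∧
        (good cl L B π R y ∧ FF T cl L B π R y = w))).card : ℝ) * (Fintype.card (Rnd n N cm) : ℝ) =
        ((univ.filter (fun R : Rnd n N cm => good cl L B π R x ∧ FF T cl L B π R x = z)).card : ℝ) *
        ((univ.filter (fun R : Rnd n N cm => good cl L B π R y ∧ FF T cl L B π R y = w)).card : ℝ) := by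
      exact_mod_cast h
    rw [card_filter_eq, card_filter_eq, card_filter_eq] at h2
    rw [card_filter_eq, card_filter_eq, card_filter_eq, ← h2]
    congr 2
    apply Pr_congr
    intro R
    tauto
  · intro P Q
    rw [ev_iff, ev_iff]
    have e1 : (mix P Q).1 (msk (B 0) x) = P.1 (msk (B 0) x) := by simp [mix]
    have e2 : (fun c : Fin cm => (mix P Q).2 c (msk (B c) x)) = fun c => P.2 c (msk (B c) x) := by
      funext c; simp [mix]
    rw [e1, e2]
  · intro P Q
    rw [ev_iff, ev_iff]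
    have e1 : (mix P Q).1 (msk (B 0) y) = Q.1 (msk (B 0) y) := by
      simp only [mix]
      rw [if_neg (Ne.symm (hxy 0))]
    have e2 : (fun c : Fin cm => (mix P Q).2 c (msk (B c) y)) = fun c => Q.2 c (msk (B c) y) := by
      funext c
      simp only [mix]
      rw [if_neg (Ne.symm (hxy c))]
    rw [e1, e2]

theorem Pr_set (_hN : 0 < N) (p : Fin N → Prop) [DecidablePred p] :
    Pr p = ((univ.filter p).card : ℝ) / N := by
  rw [Pr_def p, Fintype.card_fin]

/-- One order coordinate. -/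
theorem Pr_R2_one (_hN : 0 < N) (c : Fin cm) (μ : Cube n) (X : Equiv.Perm (Fin N) → Prop) :
    Pr (fun R : Fin cm → Cube n → Equiv.Perm (Fin N) => X (R c μ)) = Pr X := by
  rw [Pr_eval c (fun ψ : Cube n → Equiv.Perm (Fin N) => X (ψ μ)), Pr_eval μ X]

/-- Two different order coordinates. -/
theorem Pr_R2_two (_hN : 0 < N) (c c' : Fin cm) (μ μ' : Cube n) (h : ¬ (c = c' ∧ μ = μ'))
    (X Y : Equiv.Perm (Fin N) → Prop) :
    Pr (fun R : Fin cm → Cube n → Equiv.Perm (Fin N) => X (R c μ) ∧ Y (R c' μ')) =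
      Pr X * Pr Y := by
  by_cases hc : c = c'
  · subst hc
    have hμ : μ ≠ μ' := fun h' => h ⟨rfl, h'⟩
    rw [Pr_eval c (fun ψ : Cube n → Equiv.Perm (Fin N) => X (ψ μ) ∧ Y (ψ μ')), Pr_eval2 hμ]
  · rw [Pr_eval2 hc (fun ψ : Cube n → Equiv.Perm (Fin N) => X (ψ μ))
      (fun ψ : Cube n → Equiv.Perm (Fin N) => Y (ψ μ')), Pr_eval, Pr_eval]

/-- The elements of the class of `ω`. -/
def cls (cl : Cube n → Fin N → ℕ) (s : Cube n) (ω : Fin N) : Finset (Fin N) :=
  univ.filter (fun ω' => cl s ω' = cl s ω)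

theorem mem_cls (cl : Cube n → Fin N → ℕ) (s : Cube n) (ω : Fin N) : ω ∈ cls cl s ω := by
  simp [cls]

theorem cl_seedAux (cl : Cube n → Fin N → ℕ) (s : Cube n) (r : Fin N)
    (o : Fin cm → Equiv.Perm (Fin N)) : cl s (seedAux cl s r o) = cl s r := by
  unfold seedAux
  split_ifs with h
  · have hne : (univ.filter (fun ω => cl s ω = cl s r)).Nonempty := ⟨r, by simp⟩
    have := ((fst_eq_iff (o ⟨cl s r, h⟩) hne r _).1 rfl).1
    simpa using this
  · rfl

theorem seedAux_eq_iff (cl : Cube n → Fin N → ℕ) (s : Cube n) (r ω : Fin N)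
    (o : Fin cm → Equiv.Perm (Fin N)) (h : cl s ω < cm) :
    seedAux cl s r o = ω ↔ cl s r = cl s ω ∧ isF (o ⟨cl s ω, h⟩) (cls cl s ω) ω := by
  constructor
  · intro h1
    have h2 : cl s r = cl s ω := by rw [← h1]; exact (cl_seedAux cl s r o).symm
    refine ⟨h2, ?_⟩
    have h3 : cl s r < cm := by rw [h2]; exact h
    unfold seedAux at h1
    rw [dif_pos h3] at h1
    have hne : (univ.filter (fun ω => cl s ω = cl s r)).Nonempty := ⟨r, by simp⟩
    have h4 := (fst_eq_iff _ hne r ω).1 h1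
    have h5 : (⟨cl s r, h3⟩ : Fin cm) = ⟨cl s ω, h⟩ := by
      simp only [h2]
    rw [h5] at h4
    have h6 : (univ.filter (fun ω => cl s ω = cl s r)) = cls cl s ω := by
      unfold cls; rw [h2]
    rw [h6] at h4
    exact h4
  · rintro ⟨h2, h3⟩
    have h4 : cl s r < cm := by rw [h2]; exact h
    unfold seedAux
    rw [dif_pos h4]
    have hne : (univ.filter (fun ω => cl s ω = cl s r)).Nonempty := ⟨r, by simp⟩
    rw [fst_eq_iff _ hne r ω]
    have h5 : (⟨cl s r, h4⟩ : Fin cm) = ⟨cl s ω, h⟩ := by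
      simp only [h2]
    rw [h5]
    have h6 : (univ.filter (fun ω => cl s ω = cl s r)) = cls cl s ω := by
      unfold cls; rw [h2]
    rw [h6]
    exact h3

/-- The law of the seed. -/
theorem Pr_seed (hN : 0 < N) (cl : Cube n → Fin N → ℕ) (L : Cube n → Cube n)
    (B : ℕ → Finset (Fin n)) (π : Equiv.Perm (Fin n)) (x : Cube n) (ω : Fin N)
    (h : cl (pos L π x) ω < cm) :
    Pr (fun R : Rnd n N cm => seed cl L B π R x = ω) * N = 1 := by
  have hNe : Nonempty (Fin N) := ⟨⟨0, hN⟩⟩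
  have h1 : Pr (fun R : Rnd n N cm => seed cl L B π R x = ω) =
      Pr (fun R : Rnd n N cm => (cl (pos L π x) (R.1 (msk (B 0) x)) = cl (pos L π x) ω) ∧
        (isF (R.2 ⟨cl (pos L π x) ω, h⟩ (msk (B (cl (pos L π x) ω)) x))
          (cls cl (pos L π x) ω) ω)) := by
    apply Pr_congr
    intro R
    rw [seed_eq, seedAux_eq_iff _ _ _ _ _ h]
  rw [h1, Pr_prod (fun R1 : Cube n → Fin N => cl (pos L π x) (R1 (msk (B 0) x)) = cl (pos L π x) ω)
    (fun R2 : Fin cm → Cube n → Equiv.Perm (Fin N) =>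
      isF (R2 ⟨cl (pos L π x) ω, h⟩ (msk (B (cl (pos L π x) ω)) x)) (cls cl (pos L π x) ω) ω),
    Pr_R2_one hN _ _ (fun σ => isF σ (cls cl (pos L π x) ω) ω),
    Pr_eval (msk (B 0) x) (fun r : Fin N => cl (pos L π x) r = cl (pos L π x) ω),
    Pr_set hN]
  have h2 := Pr_isF1 (cls cl (pos L π x) ω) (mem_cls cl (pos L π x) ω)
  have h3 : (N : ℝ) ≠ 0 := by exact_mod_cast hN.ne'
  have h4 : ((univ.filter (fun r => cl (pos L π x) r = cl (pos L π x) ω)).card : ℝ) =
    (cls cl (pos L π x) ω).card := rfl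
  rw [h4]
  field_simp
  linarith

theorem t_MEAN : S_MEAN := by
  intro n N cm T cl L B π hN x z
  classical
  have hNe : Nonempty (Fin N) := ⟨⟨0, hN⟩⟩
  let W : Finset (Fin N) := univ.filter (fun ω : Fin N =>
    gd cl cm (pos L π x) (cl (pos L π x) ω) ∧ T (pos L π x) ω = z)
  have h1 : Pr (fun R : Rnd n N cm => good cl L B π R x ∧ FF T cl L B π R x = z) =
      ∑ ω ∈ W, Pr (fun R : Rnd n N cm => seed cl L B π R x = ω) := by
    rw [← Pr_exists_eq W (fun ω (R : Rnd n N cm) => seed cl L B π R x = ω)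
      (fun R i _ j _ hi hj => by rw [← hi, ← hj])]
    apply Pr_congr
    intro R
    constructor
    · rintro ⟨h2, h3⟩
      refine ⟨seed cl L B π R x, ?_, rfl⟩
      simp only [W, mem_filter, mem_univ, true_and]
      refine ⟨?_, h3⟩
      rw [seed_eq, cl_seedAux cl (pos L π x) (R.1 (msk (B 0) x)) (fun c => R.2 c (msk (B c) x))]
      exact h2
    · rintro ⟨ω, hω, h2⟩
      simp only [W, mem_filter, mem_univ, true_and] at hω
      refine ⟨?_, ?_⟩
      · unfold good kls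
        have h3 := cl_seedAux cl (pos L π x) (R.1 (msk (B 0) x)) (fun c => R.2 c (msk (B c) x))
        rw [← seed_eq, h2] at h3
        rw [← h3]
        exact hω.1
      · unfold FF
        rw [h2]; exact hω.2
  have h2 : ∀ ω ∈ W, Pr (fun R : Rnd n N cm => seed cl L B π R x = ω) = 1 / N := by
    intro ω hω
    simp only [W, mem_filter, mem_univ, true_and] at hω
    have h3 := Pr_seed hN cl L B π x ω hω.1.1
    have h4 : (N : ℝ) ≠ 0 := by exact_mod_cast hN.ne'
    rw [eq_div_iff h4]; exact h3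
  rw [Finset.sum_congr rfl h2, Finset.sum_const, nsmul_eq_mul] at h1
  rw [card_filter_eq, h1]
  have h4 : (N : ℝ) ≠ 0 := by exact_mod_cast hN.ne'
  have h5 : ((univ.filter (fun ω : Fin N => gd cl cm (pos L π x) (cl (pos L π x) ω) ∧
        T (pos L π x) ω = z)).card : ℝ) = W.card := by
    congr!
  rw [h5]
  field_simp

/-- The pair event. -/
theorem Pr_pair (hN : 0 < N) (cl : Cube n → Fin N → ℕ) (L : Cube n → Cube n)
    (B : ℕ → Finset (Fin n)) (π : Equiv.Perm (Fin n)) (x y : Cube n) (ω ω' : Fin N)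
    (h : gd cl cm (pos L π x) (cl (pos L π x) ω)) (h' : gd cl cm (pos L π y) (cl (pos L π y) ω')) :
    Pr (fun R : Rnd n N cm => seed cl L B π R x = ω ∧ seed cl L B π R y = ω') ≤
      (if cl (pos L π x) ω = cl (pos L π y) ω' ∧ msk (B (cl (pos L π x) ω)) x =
        msk (B (cl (pos L π x) ω)) y ∧ ω = ω' then 1 / (N : ℝ) else 0) +
      2 * (n + 1) ^ 8 / (N : ℝ) ^ 2 := by
  have hNe : Nonempty (Fin N) := ⟨⟨0, hN⟩⟩
  have hNr : (0 : ℝ) < N := by exact_mod_cast hN
  set s := pos L π x with hs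
  set s' := pos L π y with hs'
  set S := cls cl s ω with hS
  set S' := cls cl s' ω' with hS'
  have h1 : Pr (fun R : Rnd n N cm => seed cl L B π R x = ω ∧ seed cl L B π R y = ω') =
      Pr (fun R : Rnd n N cm => (cl s (R.1 (msk (B 0) x)) = cl s ω ∧
        cl s' (R.1 (msk (B 0) y)) = cl s' ω') ∧
        (isF (R.2 ⟨cl s ω, h.1⟩ (msk (B (cl s ω)) x)) S ω ∧
          isF (R.2 ⟨cl s' ω', h'.1⟩ (msk (B (cl s' ω')) y)) S' ω')) := by
    apply Pr_congr
    intro R
    rw [seed_eq, seed_eq, seedAux_eq_iff _ _ _ _ _ h.1, seedAux_eq_iff _ _ _ _ _ h'.1]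
    tauto
  rw [h1, Pr_prod (fun R1 : Cube n → Fin N => cl s (R1 (msk (B 0) x)) = cl s ω ∧
        cl s' (R1 (msk (B 0) y)) = cl s' ω') (fun R2 : Fin cm → Cube n → Equiv.Perm (Fin N) =>
        (isF (R2 ⟨cl s ω, h.1⟩ (msk (B (cl s ω)) x)) S ω ∧
          isF (R2 ⟨cl s' ω', h'.1⟩ (msk (B (cl s' ω')) y)) S' ω'))]
  have hP1 : Pr (fun R1 : Cube n → Fin N => cl s (R1 (msk (B 0) x)) = cl s ω ∧
        cl s' (R1 (msk (B 0) y)) = cl s' ω') ≤ S.card / N := by
    refine (Pr_mono (Y := fun R1 : Cube n → Fin N => cl s (R1 (msk (B 0) x)) = cl s ω)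
      (fun R hR => hR.1)).trans (le_of_eq ?_)
    rw [Pr_eval (msk (B 0) x) (fun r : Fin N => cl s r = cl s ω), Pr_set hN]
    rfl
  have hSpos : (0 : ℝ) < S.card := by
    exact_mod_cast Finset.card_pos.2 ⟨ω, mem_cls cl s ω⟩
  have hS'pos : (0 : ℝ) < S'.card := by
    exact_mod_cast Finset.card_pos.2 ⟨ω', mem_cls cl s' ω'⟩
  have hgd' : (N : ℝ) ≤ (n + 1) ^ 8 * S'.card := h'.2
  -- the generic bound
  have hgen : ∀ q : ℝ, 0 ≤ q → q * (S.card * S'.card) ≤ 2 → S.card / N * q ≤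
      2 * (n + 1) ^ 8 / (N : ℝ) ^ 2 := by
    intro q hq0 hq
    rw [le_div_iff₀ (by positivity)]
    have h2 : (S.card : ℝ) / N * q * (N : ℝ) ^ 2 = S.card * q * N := by
      field_simp
    rw [h2]
    calc S.card * q * N ≤ S.card * q * ((n + 1) ^ 8 * S'.card) := by gcongr
      _ = (q * (S.card * S'.card)) * (n + 1) ^ 8 := by ring
      _ ≤ 2 * (n + 1) ^ 8 := by gcongr
  by_cases hcoord : (⟨cl s ω, h.1⟩ : Fin cm) = ⟨cl s' ω', h'.1⟩ ∧
      msk (B (cl s ω)) x = msk (B (cl s' ω')) y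
  · obtain ⟨hc, hm⟩ := hcoord
    have hc' : cl s ω = cl s' ω' := by simpa using hc
    rw [← hc, ← hm]
    rw [Pr_R2_one hN _ _ (fun σ => isF σ S ω ∧ isF σ S' ω')]
    by_cases hω : ω = ω'
    · have hm' : msk (B (cl s ω)) x = msk (B (cl s ω)) y := by rw [hm, hc']
      rw [if_pos ⟨hc', hm', hω⟩]
      have h2 : Pr (fun σ => isF σ S ω ∧ isF σ S' ω') * S.card ≤ 1 := by
        have h3 : Pr (fun σ => isF σ S ω ∧ isF σ S' ω') ≤ Pr (fun σ => isF σ S ω) :=
          Pr_mono (fun σ hσ => hσ.1)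
        have h4 := Pr_isF1 S (mem_cls cl s ω)
        calc _ ≤ Pr (fun σ => isF σ S ω) * S.card := by gcongr
          _ = 1 := h4
      have h3 : Pr (fun R1 : Cube n → Fin N => cl s (R1 (msk (B 0) x)) = cl s ω ∧
        cl s' (R1 (msk (B 0) y)) = cl s' ω') * Pr (fun σ => isF σ S ω ∧ isF σ S' ω') ≤ 1 / N := by
        calc _ ≤ S.card / N * Pr (fun σ => isF σ S ω ∧ isF σ S' ω') :=
              mul_le_mul_of_nonneg_right hP1 (Pr_nonneg _)
          _ = (Pr (fun σ => isF σ S ω ∧ isF σ S' ω') * S.card) / N := by ring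
          _ ≤ 1 / N := by gcongr
      have h4 : (0 : ℝ) ≤ 2 * (n + 1) ^ 8 / (N : ℝ) ^ 2 := by positivity
      linarith
    · have h2 := Pr_isF3 S S' (mem_cls cl s ω) (mem_cls cl s' ω') hω
      have h3 := hgen _ (Pr_nonneg _) h2
      have h4 : Pr (fun R1 : Cube n → Fin N => cl s (R1 (msk (B 0) x)) = cl s ω ∧
        cl s' (R1 (msk (B 0) y)) = cl s' ω') * Pr (fun σ => isF σ S ω ∧ isF σ S' ω') ≤
          S.card / N * Pr (fun σ => isF σ S ω ∧ isF σ S' ω') :=
        mul_le_mul_of_nonneg_right hP1 (Pr_nonneg _)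
      split_ifs with h5
      · exact absurd h5.2.2 hω
      · linarith
  · rw [Pr_R2_two hN _ _ _ _ hcoord (fun σ => isF σ S ω) (fun σ => isF σ S' ω')]
    have h2 : Pr (fun σ => isF σ S ω) * Pr (fun σ => isF σ S' ω') * (S.card * S'.card) ≤ 2 := by
      have h3 := Pr_isF1 S (mem_cls cl s ω)
      have h4 := Pr_isF1 S' (mem_cls cl s' ω')
      have h5 : Pr (fun σ => isF σ S ω) * Pr (fun σ => isF σ S' ω') * (S.card * S'.card) = 1 := by
        calc _ = (Pr (fun σ => isF σ S ω) * S.card) * (Pr (fun σ => isF σ S' ω') * S'.card) := by ring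
          _ = 1 := by rw [h3, h4]; ring
      linarith
    have h3 := hgen _ (mul_nonneg (Pr_nonneg _) (Pr_nonneg _)) h2
    have h4 : Pr (fun R1 : Cube n → Fin N => cl s (R1 (msk (B 0) x)) = cl s ω ∧
        cl s' (R1 (msk (B 0) y)) = cl s' ω') * (Pr (fun σ => isF σ S ω) * Pr (fun σ => isF σ S' ω')) ≤
          S.card / N * (Pr (fun σ => isF σ S ω) * Pr (fun σ => isF σ S' ω')) :=
        mul_le_mul_of_nonneg_right hP1 (mul_nonneg (Pr_nonneg _) (Pr_nonneg _))
    have h5 : (0 : ℝ) ≤ (if cl s ω = cl s' ω' ∧ msk (B (cl s ω)) x = msk (B (cl s ω)) y ∧ ω = ω' then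
      1 / (N : ℝ) else 0) := by split_ifs <;> positivity
    linarith

theorem t_JOINT : S_JOINT := by
  intro n N cm T cl L B π hN x y z w
  classical
  have hNe : Nonempty (Fin N) := ⟨⟨0, hN⟩⟩
  have hNr : (0 : ℝ) < N := by exact_mod_cast hN
  set s := pos L π x with hs
  set s' := pos L π y with hs'
  let W : Finset (Fin N) := univ.filter (fun ω : Fin N => gd cl cm s (cl s ω) ∧ T s ω = z)
  let W' : Finset (Fin N) := univ.filter (fun ω : Fin N => gd cl cm s' (cl s' ω) ∧ T s' ω = w)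
  have h1 : Pr (fun R : Rnd n N cm => good cl L B π R x ∧ good cl L B π R y ∧
      FF T cl L B π R x = z ∧ FF T cl L B π R y = w) ≤
      ∑ q ∈ W ×ˢ W', Pr (fun R : Rnd n N cm => seed cl L B π R x = q.1 ∧ seed cl L B π R y = q.2) := by
    refine le_trans (Pr_mono ?_) (Pr_exists_le (W ×ˢ W') (fun q (R : Rnd n N cm) =>
      seed cl L B π R x = q.1 ∧ seed cl L B π R y = q.2))
    rintro R ⟨h2, h3, h4, h5⟩
    refine ⟨(seed cl L B π R x, seed cl L B π R y), ?_, rfl, rfl⟩
    simp only [W, W', mem_product, mem_filter, mem_univ, true_and]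
    refine ⟨⟨?_, h4⟩, ?_, h5⟩
    · rw [seed_eq, cl_seedAux cl (pos L π x) (R.1 (msk (B 0) x)) (fun c => R.2 c (msk (B c) x))]
      exact h2
    · rw [seed_eq, cl_seedAux cl (pos L π y) (R.1 (msk (B 0) y)) (fun c => R.2 c (msk (B c) y))]
      exact h3
  have h2 : ∀ q ∈ W ×ˢ W', Pr (fun R : Rnd n N cm => seed cl L B π R x = q.1 ∧
      seed cl L B π R y = q.2) ≤ (if cl s q.1 = cl s' q.2 ∧ msk (B (cl s q.1)) x =
        msk (B (cl s q.1)) y ∧ q.1 = q.2 then 1 / (N : ℝ) else 0) +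
      2 * (n + 1) ^ 8 / (N : ℝ) ^ 2 := by
    rintro ⟨ω, ω'⟩ hq
    simp only [W, W', mem_product, mem_filter, mem_univ, true_and] at hq
    exact Pr_pair hN cl L B π x y ω ω' hq.1.1 hq.2.1
  have h3 := h1.trans (Finset.sum_le_sum h2)
  rw [Finset.sum_add_distrib, Finset.sum_const, nsmul_eq_mul] at h3
  -- the diagonal part
  have h4 : ∑ q ∈ W ×ˢ W', (if cl s q.1 = cl s' q.2 ∧ msk (B (cl s q.1)) x =
        msk (B (cl s q.1)) y ∧ q.1 = q.2 then 1 / (N : ℝ) else 0) ≤
      ∑ c ∈ range cm, (if msk (B c) x = msk (B c) y then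
      ((univ.filter (fun ω : Fin N => cl s ω = c ∧ cl s' ω = c ∧
        T s ω = z ∧ T s' ω = w)).card : ℝ) / N else 0) := by
    rw [← Finset.sum_filter, Finset.sum_const, nsmul_eq_mul, mul_one_div]
    have h5 : ∀ c ∈ range cm, (if msk (B c) x = msk (B c) y then
      ((univ.filter (fun ω : Fin N => cl s ω = c ∧ cl s' ω = c ∧
        T s ω = z ∧ T s' ω = w)).card : ℝ) / N else 0) = (((univ.filter (fun ω : Fin N =>
        msk (B c) x = msk (B c) y ∧ cl s ω = c ∧ cl s' ω = c ∧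
        T s ω = z ∧ T s' ω = w)).card : ℕ) : ℝ) / N := by
      intro c _
      split_ifs with h6
      · congr 3
        ext ω; simp [h6]
      · have : (univ.filter (fun ω : Fin N =>
          msk (B c) x = msk (B c) y ∧ cl s ω = c ∧ cl s' ω = c ∧
          T s ω = z ∧ T s' ω = w)) = ∅ := by
          ext ω; simp [h6]
        rw [this]; simp
    rw [Finset.sum_congr rfl h5, ← Finset.sum_div]
    gcongr
    have h6 : ((W ×ˢ W').filter (fun q => cl s q.1 = cl s' q.2 ∧ msk (B (cl s q.1)) x =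
        msk (B (cl s q.1)) y ∧ q.1 = q.2)) ⊆ (range cm).biUnion (fun c =>
          (univ.filter (fun ω : Fin N => msk (B c) x = msk (B c) y ∧ cl s ω = c ∧ cl s' ω = c ∧
        T s ω = z ∧ T s' ω = w)).image (fun ω => (ω, ω))) := by
      rintro ⟨ω, ω'⟩ hq
      simp only [W, W', mem_product, mem_filter, mem_univ, true_and] at hq
      obtain ⟨⟨⟨hq1, hq2⟩, hq3, hq4⟩, hq5, hq6, hq7⟩ := hq
      subst hq7
      simp only [mem_biUnion, mem_range, mem_image, mem_filter, mem_univ, true_and, Prod.mk.injEq]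
      exact ⟨cl s ω, hq1.1, ω, ⟨hq6, rfl, hq5.symm, hq2, hq4⟩, rfl, rfl⟩
    have h7 : ((W ×ˢ W').filter (fun q => cl s q.1 = cl s' q.2 ∧ msk (B (cl s q.1)) x =
        msk (B (cl s q.1)) y ∧ q.1 = q.2)).card ≤ ∑ c ∈ range cm,
          (univ.filter (fun ω : Fin N => msk (B c) x = msk (B c) y ∧ cl s ω = c ∧ cl s' ω = c ∧
        T s ω = z ∧ T s' ω = w)).card := by
      refine (card_le_card h6).trans (card_biUnion_le.trans ?_)
      exact Finset.sum_le_sum fun c _ => card_image_le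
    have h8 : ((((W ×ˢ W').filter (fun q => cl s q.1 = cl s' q.2 ∧ msk (B (cl s q.1)) x =
        msk (B (cl s q.1)) y ∧ q.1 = q.2)).card : ℕ) : ℝ) ≤ ((∑ c ∈ range cm,
          (univ.filter (fun ω : Fin N => msk (B c) x = msk (B c) y ∧ cl s ω = c ∧ cl s' ω = c ∧
        T s ω = z ∧ T s' ω = w)).card : ℕ) : ℝ) := by exact_mod_cast h7
    rw [Nat.cast_sum] at h8
    exact h8
  have h5 : (((W ×ˢ W').card : ℕ) : ℝ) * (2 * (n + 1) ^ 8 / (N : ℝ) ^ 2) ≤
     2 * (n + 1) ^ 8 *
      (((univ.filter (fun ω : Fin N => cl s ω < cm ∧ T s ω = z)).card : ℝ) / N) *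
      (((univ.filter (fun ω : Fin N => cl s' ω < cm ∧ T s' ω = w)).card : ℝ) / N) := by
    rw [card_product]
    have h6 : W.card ≤ (univ.filter (fun ω : Fin N => cl s ω < cm ∧ T s ω = z)).card := by
      apply card_le_card
      intro ω hω
      simp only [W, mem_filter, mem_univ, true_and] at hω ⊢
      exact ⟨hω.1.1, hω.2⟩
    have h7 : W'.card ≤ (univ.filter (fun ω : Fin N => cl s' ω < cm ∧ T s' ω = w)).card := by
      apply card_le_card
      intro ω hω
      simp only [W', mem_filter, mem_univ, true_and] at hω ⊢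
      exact ⟨hω.1.1, hω.2⟩
    have h6' : (W.card : ℝ) ≤ ((univ.filter (fun ω : Fin N => cl s ω < cm ∧ T s ω = z)).card : ℝ) := by
      exact_mod_cast h6
    have h7' : (W'.card : ℝ) ≤ ((univ.filter (fun ω : Fin N => cl s' ω < cm ∧ T s' ω = w)).card : ℝ) := by
      exact_mod_cast h7
    push_cast
    calc (W.card : ℝ) * W'.card * (2 * (n + 1) ^ 8 / (N : ℝ) ^ 2)
        = 2 * (n + 1) ^ 8 * (W.card / N) * (W'.card / N) := by field_simp
      _ ≤ _ := by gcongr
  have h6 := h3.trans (add_le_add h4 h5)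
  rw [card_filter_eq, mul_comm]
  refine mul_le_mul_of_nonneg_left (h6.trans (le_of_eq ?_)) (by positivity)
  congr 1

end Pool.Agent.K1H37.ST
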