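import Pool.Agent.K1H64.ST.Defs
import Pool.Agent.W167.Stretch.Kernel

/-! From small `L¹` discrepancy after smoothing to a bijection. -/

set_option autoImplicit false

noncomputable section

namespace Pool.Agent.K1H37.ST

open Finset hiding box
open Pool.Agent.K1H64.ST Pool.Agent.W167.Stretch

/-- Flip the coordinates of odd multiplicity. -/
def mv {n ρ : ℕ} (z : Cube n) (t : Fin ρ → Fin n) : Cube n :=
  fun i => xor (z i) (decide (Odd (univ.filter (fun a => t a = i)).card))

theorem PK_eq (ρ : ℕ) {n : ℕ} (z y : Cube n) :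
    PK ρ z y = ((univ.filter (fun t : Fin ρ → Fin n => mv z t = y)).card : ℝ) / (n : ℝ) ^ ρ := rfl

theorem PK_nonneg (ρ : ℕ) {n : ℕ} (z y : Cube n) : 0 ≤ PK ρ z y := by
  rw [PK_eq]; positivity

theorem sum_PK (ρ : ℕ) {n : ℕ} (z : Cube (n + 1)) : ∑ y, PK ρ z y = 1 := by
  simp only [PK_eq]
  rw [← Finset.sum_div]
  have h : (univ : Finset (Fin ρ → Fin (n + 1))).card = ∑ y : Cube (n + 1),
      (univ.filter (fun t : Fin ρ → Fin (n + 1) => mv z t = y)).card :=
    Finset.card_eq_sum_card_fiberwise (fun t _ => mem_coe.2 (mem_univ _))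
  have h2 : (∑ y : Cube (n + 1), ((univ.filter (fun t : Fin ρ → Fin (n + 1) => mv z t = y)).card : ℝ))
      = ((n + 1 : ℕ) : ℝ) ^ ρ := by
    rw [← Nat.cast_sum, ← h]
    simp
  rw [h2, div_self]
  positivity

theorem hammingDist_mv {n ρ : ℕ} (z : Cube n) (t : Fin ρ → Fin n) :
    hammingDist z (mv z t) ≤ ρ := by
  unfold hammingDist
  have h : (univ.filter (fun i => z i ≠ mv z t i)) ⊆ univ.image t := by
    intro i hi
    have hi2 := (mem_filter.1 hi).2
    simp only [mem_image, mem_univ, true_and]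
    by_contra hcon
    push Not at hcon
    apply hi2
    have : (univ.filter (fun a => t a = i)) = ∅ := by
      rw [Finset.filter_eq_empty_iff]
      intro a _
      exact hcon a
    unfold mv
    rw [this]
    simp
  exact (card_le_card h).trans (card_image_le.trans (by simp))

theorem PK_cost (ρ : ℕ) {n : ℕ} (z : Cube (n + 1)) :
    ∑ y, PK ρ z y * (hammingDist z y : ℝ) ≤ ρ := by
  have h : ∀ y, PK ρ z y * (hammingDist z y : ℝ) ≤ PK ρ z y * ρ := by
    intro y
    by_cases h1 : ∃ t : Fin ρ → Fin (n + 1), mv z t = y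
    · obtain ⟨t, rfl⟩ := h1
      apply mul_le_mul_of_nonneg_left _ (PK_nonneg _ _ _)
      exact_mod_cast hammingDist_mv z t
    · push Not at h1
      have : PK ρ z y = 0 := by
        rw [PK_eq]
        have : (univ.filter (fun t : Fin ρ → Fin (n + 1) => mv z t = y)) = ∅ := by
          rw [Finset.filter_eq_empty_iff]
          intro t _
          exact h1 t
        rw [this]; simp
      rw [this]; simp
  refine (Finset.sum_le_sum fun y _ => h y).trans (le_of_eq ?_)
  rw [← Finset.sum_mul, sum_PK, one_mul]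

theorem t_MATCH : S_MATCH := by
  intro n ρ A hA F
  let d : Cube (n + 1) → Cube (n + 1) → ℝ := fun z w => (hammingDist z w : ℝ)
  let μ0 : Cube (n + 1) → ℝ := fun z => ((univ.filter (fun x => F x = z)).card : ℝ)
  let ν0 : Cube (n + 1) → ℝ := fun z => if z ∈ A then 1 else 0
  let μ1 : Cube (n + 1) → ℝ := fun y => ∑ z, μ0 z * PK ρ z y
  let ν1 : Cube (n + 1) → ℝ := fun y => ∑ z, ν0 z * PK ρ z y
  have hμ0 : ∀ z, 0 ≤ μ0 z := fun z => by positivity
  have hν0 : ∀ z, 0 ≤ ν0 z := fun z => by simp only [ν0]; split_ifs <;> norm_num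
  have hμ1 : ∀ z, 0 ≤ μ1 z := fun z => Finset.sum_nonneg fun y _ => mul_nonneg (hμ0 _) (PK_nonneg _ _ _)
  have hν1 : ∀ z, 0 ≤ ν1 z := fun z => Finset.sum_nonneg fun y _ => mul_nonneg (hν0 _) (PK_nonneg _ _ _)
  have hdt : ∀ x y z, d x z ≤ d x y + d y z := by
    intro x y z
    simp only [d]
    exact_mod_cast hammingDist_triangle x y z
  have hm0 : ∑ z, μ0 z = 2 ^ n := by
    simp only [μ0]
    rw [← Nat.cast_sum]
    have h : (univ : Finset (Cube n)).card = ∑ z : Cube (n + 1),
      (univ.filter (fun x : Cube n => F x = z)).card :=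
      Finset.card_eq_sum_card_fiberwise (fun t _ => mem_coe.2 (mem_univ _))
    rw [← h]
    simp
  have hn0 : ∑ z, ν0 z = 2 ^ n := by
    simp only [ν0]
    rw [Finset.sum_ite_mem, Finset.univ_inter, Finset.sum_const, nsmul_eq_mul, mul_one, hA]
    push_cast; rfl
  have hm1 : ∑ z, μ1 z = 2 ^ n := by
    simp only [μ1]
    rw [Finset.sum_comm, ← hm0]
    refine Finset.sum_congr rfl fun z _ => ?_
    rw [← Finset.mul_sum, sum_PK, mul_one]
  have hn1 : ∑ z, ν1 z = 2 ^ n := by
    simp only [ν1]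
    rw [Finset.sum_comm, ← hn0]
    refine Finset.sum_congr rfl fun z _ => ?_
    rw [← Finset.mul_sum, sum_PK, mul_one]
  have h1 : Tr d μ0 μ1 (ρ * 2 ^ n) := by
    refine ⟨fun z y => PK ρ z y, fun z w => PK_nonneg _ _ _, fun z => sum_PK ρ z, fun w => rfl, ?_⟩
    calc ∑ z, ∑ w, μ0 z * PK ρ z w * d z w = ∑ z, μ0 z * ∑ w, PK ρ z w * d z w := by
          refine Finset.sum_congr rfl fun z _ => ?_
          rw [Finset.mul_sum]
          refine Finset.sum_congr rfl fun w _ => ?_
          ring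
      _ ≤ ∑ z, μ0 z * ρ := Finset.sum_le_sum fun z _ =>
          mul_le_mul_of_nonneg_left (PK_cost ρ z) (hμ0 z)
      _ = ρ * 2 ^ n := by rw [← Finset.sum_mul, hm0]; ring
  have h2 : Tr d μ1 ν1 ((n + 1) * ∑ z, |μ1 z - ν1 z|) := by
    refine Tr.block (fun _ => ()) hμ1 hν1 (by positivity) ?_ ?_ ?_
    · intro z
      simp only [Finset.filter_true_of_mem (fun _ _ => trivial)]
      rw [hm1, hn1]
    · intro z w _
      simp only [d]
      have := hammingDist_le_card_fintype (x := z) (y := w)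
      rw [Fintype.card_fin] at this
      exact_mod_cast this
    · intro z
      simp [d]
  have h3 : Tr d ν1 ν0 (ρ * 2 ^ n) := by
    refine Tr.of_plan (fun y z => ν0 z * PK ρ z y) (fun z w => mul_nonneg (hν0 _) (PK_nonneg _ _ _))
      (fun z => rfl) (fun w => ?_) ?_
    · rw [← Finset.mul_sum, sum_PK, mul_one]
    · rw [Finset.sum_comm]
      calc ∑ z, ∑ y, ν0 z * PK ρ z y * d y z = ∑ z, ν0 z * ∑ y, PK ρ z y * d z y := by
            refine Finset.sum_congr rfl fun z _ => ?_
            rw [Finset.mul_sum]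
            refine Finset.sum_congr rfl fun w _ => ?_
            simp only [d]
            rw [hammingDist_comm z w]
            ring
        _ ≤ ∑ z, ν0 z * ρ := Finset.sum_le_sum fun z _ =>
            mul_le_mul_of_nonneg_left (PK_cost ρ z) (hν0 z)
        _ = ρ * 2 ^ n := by rw [← Finset.sum_mul, hn0]; ring
  have h4 := Tr.trans hdt hμ1 h2 h3
  have h5 := Tr.trans hdt hμ0 h1 h4
  have h6 := exists_matching (d := d) (fun z w => by positivity) F A ∅ (disjoint_empty_right _)
    (θ := 0) (c := ρ * 2 ^ n + ((n + 1) * ∑ z, |μ1 z - ν1 z| + ρ * 2 ^ n)) zero_le_one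
    (by positivity) (by simpa [μ0, ν0] using h5)
  obtain ⟨φ, p1, p2, p3, p4⟩ := h6
  refine ⟨φ, p1, ?_, p4.trans (le_of_eq ?_)⟩
  · ext z
    constructor
    · rintro ⟨x, rfl⟩
      rcases p2 x with h | h
      · exact h
      · simp at h
    · intro hz
      obtain ⟨p, hp⟩ := p3 z hz
      exact ⟨p, hp⟩
  · have h7 : ∀ y, μ1 y - ν1 y = ∑ z, (((univ.filter (fun x => F x = z)).card : ℝ) -
        if z ∈ A then 1 else 0) * PK ρ z y := by
      intro y
      simp only [μ1, ν1, μ0, ν0]
      rw [← Finset.sum_sub_distrib]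
      refine Finset.sum_congr rfl fun z _ => ?_
      ring
    simp only [h7]
    ring

end Pool.Agent.K1H37.ST
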