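import Pool.Agent.K1H64.ST.Defs2

/-! Uniform probability on finite types; random orders. -/

set_option autoImplicit false

noncomputable section

namespace Pool.Agent.K1H37.ST

open Finset hiding box
open Pool.Agent.K1H64.ST

section Pr

variable {Ω Ω' I α : Type*} [Fintype Ω] [Fintype Ω'] [Fintype I] [DecidableEq I] [Fintype α]

open Classical in
/-- Uniform probability. -/
def Pr (X : Ω → Prop) : ℝ := ((univ.filter X).card : ℝ) / Fintype.card Ω

theorem Pr_def (X : Ω → Prop) [DecidablePred X] :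
    Pr X = ((univ.filter X).card : ℝ) / Fintype.card Ω := by
  unfold Pr
  congr!

theorem card_filter_eq [Nonempty Ω] (X : Ω → Prop) [DecidablePred X] :
    ((univ.filter X).card : ℝ) = Pr X * Fintype.card Ω := by
  have : (Fintype.card Ω : ℝ) ≠ 0 := by exact_mod_cast Fintype.card_ne_zero
  rw [Pr_def X, div_mul_cancel₀ _ this]

theorem Pr_nonneg (X : Ω → Prop) : 0 ≤ Pr X := by
  unfold Pr; positivity

theorem Pr_mono {X Y : Ω → Prop} (h : ∀ ω, X ω → Y ω) : Pr X ≤ Pr Y := by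
  unfold Pr
  gcongr with ω _
  exact h ω

theorem Pr_congr {X Y : Ω → Prop} (h : ∀ ω, X ω ↔ Y ω) : Pr X = Pr Y := by
  have : X = Y := funext fun ω => propext (h ω)
  rw [this]

theorem Pr_true [Nonempty Ω] : Pr (fun _ : Ω => True) = 1 := by
  have : (Fintype.card Ω : ℝ) ≠ 0 := by exact_mod_cast Fintype.card_ne_zero
  rw [Pr_def (fun _ : Ω => True), Finset.filter_true_of_mem (fun _ _ => trivial),
    Finset.card_univ, div_self this]

theorem Pr_le_one (X : Ω → Prop) : Pr X ≤ 1 := by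
  unfold Pr
  by_cases h : Fintype.card Ω = 0
  · simp [h]
  · rw [div_le_one (by exact_mod_cast Nat.pos_of_ne_zero h)]
    exact_mod_cast card_le_univ _

theorem Pr_equiv (e : Ω ≃ Ω') (X : Ω' → Prop) : Pr (fun ω => X (e ω)) = Pr X := by
  classical
  unfold Pr
  rw [Fintype.card_congr e]
  congr 2
  refine Finset.card_bij (fun ω _ => e ω) ?_ ?_ ?_
  · intro ω hω; simpa using hω
  · intro a _ b _ h; exact e.injective h
  · intro b hb
    exact ⟨e.symm b, by simpa using hb, by simp⟩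

theorem Pr_prod (X : Ω → Prop) (Y : Ω' → Prop) :
    Pr (fun q : Ω × Ω' => X q.1 ∧ Y q.2) = Pr X * Pr Y := by
  classical
  rw [Pr_def (fun q : Ω × Ω' => X q.1 ∧ Y q.2), Pr_def X, Pr_def Y, Fintype.card_prod]
  have : (univ.filter (fun q : Ω × Ω' => X q.1 ∧ Y q.2)) = (univ.filter X) ×ˢ (univ.filter Y) := by
    ext q; simp
  have h2 : ((univ.filter (fun q : Ω × Ω' => X q.1 ∧ Y q.2)).card : ℝ) =
      ((univ.filter X).card : ℝ) * ((univ.filter Y).card : ℝ) := by
    rw [this, card_product]; push_cast; rfl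
  push_cast
  rw [div_mul_div_comm, h2]

theorem Pr_fst [Nonempty Ω'] (X : Ω → Prop) : Pr (fun q : Ω × Ω' => X q.1) = Pr X := by
  have := Pr_prod (Ω' := Ω') X (fun _ => True)
  rw [Pr_true, mul_one] at this
  rw [← this]
  exact Pr_congr (fun q => by simp)

theorem Pr_snd [Nonempty Ω] (Y : Ω' → Prop) : Pr (fun q : Ω × Ω' => Y q.2) = Pr Y := by
  have := Pr_prod (Ω := Ω) (fun _ => True) Y
  rw [Pr_true, one_mul] at this
  rw [← this]
  exact Pr_congr (fun q => by simp)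

theorem Pr_eval [Nonempty α] (i : I) (X : α → Prop) :
    Pr (fun φ : I → α => X (φ i)) = Pr X := by
  have h1 := Pr_equiv (Equiv.funSplitAt i α) (fun q => X q.1)
  have h2 := Pr_fst (Ω' := {j // j ≠ i} → α) X
  rw [h2] at h1
  rw [← h1]
  exact Pr_congr (fun φ => by simp [Equiv.funSplitAt])

theorem Pr_eval2 [Nonempty α] {i j : I} (hij : i ≠ j) (X Y : α → Prop) :
    Pr (fun φ : I → α => X (φ i) ∧ Y (φ j)) = Pr X * Pr Y := by
  have h1 := Pr_equiv (Equiv.funSplitAt i α) (fun q => X q.1 ∧ Y (q.2 ⟨j, Ne.symm hij⟩))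
  have h2 := Pr_prod X (fun r : {j // j ≠ i} → α => Y (r ⟨j, Ne.symm hij⟩))
  rw [Pr_eval] at h2
  rw [h2] at h1
  rw [← h1]
  exact Pr_congr (fun φ => by simp [Equiv.funSplitAt])

theorem Pr_exists_le {J : Type*} (s : Finset J) (X : J → Ω → Prop) :
    Pr (fun ω => ∃ j ∈ s, X j ω) ≤ ∑ j ∈ s, Pr (X j) := by
  classical
  rw [Pr_def (fun ω => ∃ j ∈ s, X j ω), Finset.sum_congr rfl (fun j _ => Pr_def (X j)),
    ← Finset.sum_div]
  gcongr
  have : (univ.filter (fun ω => ∃ j ∈ s, X j ω)) ⊆ s.biUnion (fun j => univ.filter (X j)) := by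
    intro ω hω
    simp only [mem_filter, mem_univ, true_and, mem_biUnion] at hω ⊢
    exact hω
  have h2 : (univ.filter (fun ω => ∃ j ∈ s, X j ω)).card ≤ ∑ j ∈ s, (univ.filter (X j)).card :=
    (card_le_card this).trans card_biUnion_le
  exact_mod_cast h2

theorem Pr_exists_eq {J : Type*} (s : Finset J) (X : J → Ω → Prop)
    (h : ∀ ω, ∀ i ∈ s, ∀ j ∈ s, X i ω → X j ω → i = j) :
    Pr (fun ω => ∃ j ∈ s, X j ω) = ∑ j ∈ s, Pr (X j) := by
  classical
  rw [Pr_def (fun ω => ∃ j ∈ s, X j ω), Finset.sum_congr rfl (fun j _ => Pr_def (X j)),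
    ← Finset.sum_div]
  congr 1
  have : (univ.filter (fun ω => ∃ j ∈ s, X j ω)) = s.biUnion (fun j => univ.filter (X j)) := by
    ext ω
    simp only [mem_filter, mem_univ, true_and, mem_biUnion]
  rw [this, card_biUnion]
  · push_cast; rfl
  · intro i hi j hj hij
    rw [Function.onFun, Finset.disjoint_left]
    intro ω h1 h2
    simp only [mem_filter, mem_univ, true_and] at h1 h2
    exact hij (h ω i hi j hj h1 h2)

/-- Independence of two events on disjoint sets of coordinates. -/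
theorem card_indep_of_mix (mix : Ω → Ω → Ω) (h1 : ∀ P Q, mix (mix P Q) (mix Q P) = P)
    (X Y : Ω → Prop) [DecidablePred X] [DecidablePred Y] [DecidablePred fun R => X R ∧ Y R]
    (hX : ∀ P Q, X (mix P Q) ↔ X P) (hY : ∀ P Q, Y (mix P Q) ↔ Y Q) :
    (univ.filter (fun R => X R ∧ Y R)).card * Fintype.card Ω =
      (univ.filter X).card * (univ.filter Y).card := by
  rw [← Finset.card_univ, ← card_product, ← card_product]
  refine Finset.card_nbij' (fun q => (mix q.1 q.2, mix q.2 q.1)) (fun q => (mix q.1 q.2, mix q.2 q.1))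
    ?_ ?_ ?_ ?_
  · rintro ⟨P, Q⟩ h
    simp only [coe_product, coe_filter, mem_univ, true_and, coe_univ, Set.mem_prod,
      Set.mem_ofPred_eq, Set.mem_univ, and_true] at h ⊢
    exact ⟨(hX P Q).2 h.1, (hY Q P).2 h.2⟩
  · rintro ⟨P, Q⟩ h
    simp only [coe_product, coe_filter, mem_univ, true_and, coe_univ, Set.mem_prod,
      Set.mem_ofPred_eq, Set.mem_univ, and_true] at h ⊢
    exact ⟨(hX P Q).2 h.1, (hY P Q).2 h.2⟩
  · rintro ⟨P, Q⟩ _
    simp only [h1]
  · rintro ⟨P, Q⟩ _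
    simp only [h1]

end Pr

section Fst

variable {N : ℕ}

/-- `ω` is the first element of `S` in the order `σ`. -/
def isF (σ : Equiv.Perm (Fin N)) (S : Finset (Fin N)) (ω : Fin N) : Prop :=
  ω ∈ S ∧ ∀ y ∈ S, σ ω ≤ σ y

theorem fst_eq_iff (σ : Equiv.Perm (Fin N)) {S : Finset (Fin N)} (hS : S.Nonempty) (d ω : Fin N) :
    fstσ σ S d = ω ↔ isF σ S ω := by
  unfold fstσ isF
  rw [dif_pos hS]
  constructor
  · rintro rfl
    have h1 := Finset.min'_mem (S.image σ) (hS.image _)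
    obtain ⟨y, hy, hy2⟩ := Finset.mem_image.1 h1
    refine ⟨?_, ?_⟩
    · rw [← hy2]; simpa using hy
    · intro z hz
      rw [Equiv.apply_symm_apply]
      exact Finset.min'_le _ _ (Finset.mem_image_of_mem _ hz)
  · rintro ⟨h1, h2⟩
    rw [Equiv.symm_apply_eq]
    apply le_antisymm
    · exact Finset.min'_le _ _ (Finset.mem_image_of_mem _ h1)
    · refine Finset.le_min' _ _ _ ?_
      intro y hy
      obtain ⟨z, hz, rfl⟩ := Finset.mem_image.1 hy
      exact h2 z hz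

theorem isF_unique {σ : Equiv.Perm (Fin N)} {S : Finset (Fin N)} {a b : Fin N} (ha : isF σ S a)
    (hb : isF σ S b) : a = b := by
  have h1 := ha.2 b hb.1
  have h2 := hb.2 a ha.1
  exact σ.injective (le_antisymm h1 h2)

theorem isF_exists (σ : Equiv.Perm (Fin N)) {S : Finset (Fin N)} (hS : S.Nonempty) :
    ∃ a ∈ S, isF σ S a := by
  obtain ⟨a, ha, h⟩ := Finset.exists_min_image S σ hS
  exact ⟨a, ha, ha, h⟩

theorem isF_swap {σ : Equiv.Perm (Fin N)} {S : Finset (Fin N)} {a b : Fin N} (ha : a ∈ S)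
    (hb : b ∈ S) (h : isF σ S a) : isF (σ * Equiv.swap a b) S b := by
  refine ⟨hb, ?_⟩
  intro y hy
  simp only [Equiv.Perm.coe_mul, Function.comp_apply, Equiv.swap_apply_right]
  apply h.2
  by_cases h1 : y = a
  · rw [h1, Equiv.swap_apply_left]; exact hb
  · by_cases h2 : y = b
    · rw [h2, Equiv.swap_apply_right]; exact ha
    · rw [Equiv.swap_apply_of_ne_of_ne h1 h2]; exact hy

/-- The symmetry principle. -/
theorem Pr_isF (S : Finset (Fin N)) (Q : Equiv.Perm (Fin N) → Prop)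
    (hQ : ∀ σ, ∀ a ∈ S, ∀ b ∈ S, Q σ → Q (σ * Equiv.swap a b)) {ω : Fin N} (hω : ω ∈ S) :
    Pr (fun σ => Q σ ∧ isF σ S ω) * S.card = Pr Q := by
  classical
  have h1 : ∀ ω' ∈ S, Pr (fun σ => Q σ ∧ isF σ S ω') = Pr (fun σ => Q σ ∧ isF σ S ω) := by
    intro ω' hω'
    rw [← Pr_equiv (Equiv.mulRight (Equiv.swap ω ω')) (fun σ => Q σ ∧ isF σ S ω')]
    refine Pr_congr (fun σ => ?_)
    simp only [Equiv.coe_mulRight]
    constructor
    · rintro ⟨h2, h3⟩
      have h4 := hQ _ ω hω ω' hω' h2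
      have h5 := isF_swap hω' hω h3
      rw [Equiv.swap_comm ω' ω] at h5
      rw [mul_assoc, Equiv.swap_mul_self, mul_one] at h4 h5
      exact ⟨h4, h5⟩
    · rintro ⟨h2, h3⟩
      exact ⟨hQ _ ω hω ω' hω' h2, isF_swap hω hω' h3⟩
  have h2 := Pr_exists_eq S (fun ω' σ => Q σ ∧ isF σ S ω') (fun σ i _ j _ hi hj =>
    isF_unique hi.2 hj.2)
  rw [Finset.sum_congr rfl h1, Finset.sum_const, nsmul_eq_mul] at h2
  rw [mul_comm, ← h2]
  refine Pr_congr (fun σ => ?_)
  constructor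
  · rintro ⟨_, _, h3, _⟩; exact h3
  · intro h3
    obtain ⟨a, ha, ha2⟩ := isF_exists σ ⟨ω, hω⟩
    exact ⟨a, ha, h3, ha2⟩

theorem Pr_isF1 (S : Finset (Fin N)) {ω : Fin N} (hω : ω ∈ S) :
    Pr (fun σ : Equiv.Perm (Fin N) => isF σ S ω) * S.card = 1 := by
  have h := Pr_isF S (fun _ => True) (fun _ _ _ _ _ _ => trivial) hω
  rw [Pr_true] at h
  rw [← h]
  congr 1
  exact Pr_congr (fun σ => by simp)

theorem isF_union {σ : Equiv.Perm (Fin N)} {S S' : Finset (Fin N)} {ω : Fin N} (h : ω ∈ S)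
    (h' : ω ∈ S') : (isF σ S ω ∧ isF σ S' ω) ↔ isF σ (S ∪ S') ω := by
  unfold isF
  constructor
  · rintro ⟨h1, h2⟩
    refine ⟨mem_union_left _ h, ?_⟩
    intro y hy
    rcases mem_union.1 hy with h3 | h3
    · exact h1.2 y h3
    · exact h2.2 y h3
  · rintro ⟨_, h2⟩
    exact ⟨⟨h, fun y hy => h2 y (mem_union_left _ hy)⟩, ⟨h', fun y hy => h2 y (mem_union_right _ hy)⟩⟩

theorem Pr_isF2 (S S' : Finset (Fin N)) {ω : Fin N} (h : ω ∈ S) (h' : ω ∈ S') :
    Pr (fun σ : Equiv.Perm (Fin N) => isF σ S ω ∧ isF σ S' ω) * (S ∪ S').card = 1 := by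
  rw [← Pr_isF1 (S ∪ S') (mem_union_left _ h)]
  congr 1
  exact Pr_congr (fun σ => isF_union h h')

/-- One half of the third fact. -/
theorem Pr_isF3_half (S S' : Finset (Fin N)) {ω ω' : Fin N} (h : ω ∈ S) (h' : ω' ∈ S') :
    Pr (fun σ : Equiv.Perm (Fin N) => (isF σ S ω ∧ isF σ S' ω') ∧ σ ω < σ ω') * (S.card * S'.card)
      ≤ 1 := by
  by_cases h1 : ω ∈ S'
  · have : Pr (fun σ : Equiv.Perm (Fin N) => (isF σ S ω ∧ isF σ S' ω') ∧ σ ω < σ ω') = 0 := by
      apply le_antisymm _ (Pr_nonneg _)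
      have h2 : Pr (fun σ : Equiv.Perm (Fin N) => (isF σ S ω ∧ isF σ S' ω') ∧ σ ω < σ ω') ≤
          Pr (fun _ : Equiv.Perm (Fin N) => False) := by
        apply Pr_mono
        rintro σ ⟨⟨_, h3⟩, h4⟩
        exact absurd (h3.2 ω h1) (not_le.2 h4)
      refine h2.trans (le_of_eq ?_)
      simp [Pr]
    rw [this, zero_mul]
    exact zero_le_one
  · have hsub : ∀ a ∈ S', a ≠ ω := fun a ha hc => h1 (hc ▸ ha)
    have h2 := Pr_isF S' (fun σ => isF σ (S ∪ S') ω) (by
      intro σ a ha b hb hQ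
      refine ⟨hQ.1, ?_⟩
      intro y hy
      simp only [Equiv.Perm.coe_mul, Function.comp_apply]
      rw [Equiv.swap_apply_of_ne_of_ne (Ne.symm (hsub a ha)) (Ne.symm (hsub b hb))]
      apply hQ.2
      by_cases h3 : y = a
      · rw [h3, Equiv.swap_apply_left]; exact mem_union_right _ hb
      · by_cases h4 : y = b
        · rw [h4, Equiv.swap_apply_right]; exact mem_union_right _ ha
        · rw [Equiv.swap_apply_of_ne_of_ne h3 h4]; exact hy) h'
    have h3 := Pr_isF1 (S ∪ S') (mem_union_left S' h)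
    have h4 : Pr (fun σ : Equiv.Perm (Fin N) => (isF σ S ω ∧ isF σ S' ω') ∧ σ ω < σ ω') ≤
        Pr (fun σ => isF σ (S ∪ S') ω ∧ isF σ S' ω') := by
      apply Pr_mono
      rintro σ ⟨⟨h5, h6⟩, h7⟩
      refine ⟨⟨mem_union_left _ h, ?_⟩, h6⟩
      intro y hy
      rcases mem_union.1 hy with h8 | h8
      · exact h5.2 y h8
      · exact h7.le.trans (h6.2 y h8)
    have h5 : (S.card : ℝ) ≤ (S ∪ S').card := by exact_mod_cast card_le_card subset_union_left
    calc _ ≤ Pr (fun σ : Equiv.Perm (Fin N) => isF σ (S ∪ S') ω ∧ isF σ S' ω') *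
          (((S ∪ S').card : ℝ) * S'.card) := by
          apply mul_le_mul h4 _ (by positivity) (Pr_nonneg _)
          gcongr
      _ = 1 := by
          rw [← h3, ← h2]; ring

theorem Pr_isF3 (S S' : Finset (Fin N)) {ω ω' : Fin N} (h : ω ∈ S) (h' : ω' ∈ S') (hne : ω ≠ ω') :
    Pr (fun σ : Equiv.Perm (Fin N) => isF σ S ω ∧ isF σ S' ω') * (S.card * S'.card) ≤ 2 := by
  have h1 := Pr_isF3_half S S' h h'
  have h2 := Pr_isF3_half S' S h' h
  have h3 : Pr (fun σ : Equiv.Perm (Fin N) => isF σ S ω ∧ isF σ S' ω') ≤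
      Pr (fun σ : Equiv.Perm (Fin N) => (isF σ S ω ∧ isF σ S' ω') ∧ σ ω < σ ω') +
      Pr (fun σ : Equiv.Perm (Fin N) => (isF σ S' ω' ∧ isF σ S ω) ∧ σ ω' < σ ω) := by
    have h4 := Pr_exists_le (Ω := Equiv.Perm (Fin N)) (univ : Finset Bool) (fun b σ =>
      if b then (isF σ S ω ∧ isF σ S' ω') ∧ σ ω < σ ω' else (isF σ S' ω' ∧ isF σ S ω) ∧ σ ω' < σ ω)
    simp only [mem_univ, true_and, Fintype.sum_bool, if_true, Bool.false_eq_true, if_false] at h4
    refine le_trans (Pr_mono ?_) h4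
    rintro σ ⟨h5, h6⟩
    rcases lt_trichotomy (σ ω) (σ ω') with h7 | h7 | h7
    · exact ⟨true, by simp [h5, h6, h7]⟩
    · exact absurd (σ.injective h7) hne
    · exact ⟨false, by simp [h5, h6, h7]⟩
  calc _ ≤ (Pr (fun σ : Equiv.Perm (Fin N) => (isF σ S ω ∧ isF σ S' ω') ∧ σ ω < σ ω') +
      Pr (fun σ : Equiv.Perm (Fin N) => (isF σ S' ω' ∧ isF σ S ω) ∧ σ ω' < σ ω)) *
        (S.card * S'.card) := by gcongr
    _ ≤ 2 := by
      rw [add_mul]
      rw [mul_comm (S'.card : ℝ) (S.card : ℝ)] at h2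
      linarith

theorem t_FST : S_FST := by
  intro N S S' d ω ω'
  refine ⟨?_, ?_, ?_⟩
  · intro h
    have h1 := Pr_isF1 S h
    rw [card_filter_eq, Pr_congr (fun σ => fst_eq_iff σ ⟨ω, h⟩ d ω)]
    linear_combination (Fintype.card (Equiv.Perm (Fin N)) : ℝ) * h1
  · intro h h'
    have h1 := Pr_isF2 S S' h h'
    rw [card_filter_eq, Pr_congr (fun σ => and_congr (fst_eq_iff σ ⟨ω, h⟩ d ω)
      (fst_eq_iff σ ⟨ω, h'⟩ d ω))]
    linear_combination (Fintype.card (Equiv.Perm (Fin N)) : ℝ) * h1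
  · intro h h' hne
    have h1 := Pr_isF3 S S' h h' hne
    rw [card_filter_eq, Pr_congr (fun σ => and_congr (fst_eq_iff σ ⟨ω, h⟩ d ω)
      (fst_eq_iff σ ⟨ω', h'⟩ d ω'))]
    have h2 : (0 : ℝ) ≤ (Fintype.card (Equiv.Perm (Fin N)) : ℝ) := by positivity
    nlinarith

end Fst

end Pool.Agent.K1H37.ST
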