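import Pool.Agent.K1H64.ST.Defs

/-! Number of tuples with prescribed parities. -/

set_option autoImplicit false

noncomputable section

namespace Pool.Agent.K1H37.ST

open Finset hiding box
open Pool.Agent.K1H64.ST

section

variable {ι : Type} [Fintype ι] [DecidableEq ι]

set_option linter.unusedSectionVars false

/-- The parity condition. -/
def Par {j : ℕ} (t : Fin j → ι) (v : Finset ι) : Prop :=
  ∀ r, Odd ((univ.filter (fun a => t a = r)).card) ↔ r ∈ v

instance {j : ℕ} (t : Fin j → ι) (v : Finset ι) : Decidable (Par t v) := by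
  unfold Par; infer_instance

/-- The number of tuples. -/
def NT (j : ℕ) (v : Finset ι) : ℕ := (univ.filter (fun t : Fin j → ι => Par t v)).card

theorem Par_card {j : ℕ} {t : Fin j → ι} {v : Finset ι} (h : Par t v) : v.card ≤ j := by
  have h1 : v ⊆ univ.image t := by
    intro r hr
    have h2 := (h r).2 hr
    simp only [mem_image, mem_univ, true_and]
    by_contra hcon
    push Not at hcon
    have : (univ.filter (fun a => t a = r)) = ∅ := by
      rw [Finset.filter_eq_empty_iff]
      intro a _
      exact hcon a
    rw [this] at h2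
    simp at h2
  exact (card_le_card h1).trans (card_image_le.trans (by simp))

theorem NT_zero_of_lt {j : ℕ} {v : Finset ι} (h : j < v.card) : NT j v = 0 := by
  unfold NT
  rw [Finset.card_eq_zero, Finset.filter_eq_empty_iff]
  intro t _ ht
  exact absurd (Par_card ht) (not_le.2 h)

theorem Par_cons {j : ℕ} (r : ι) (t : Fin j → ι) (v : Finset ι) :
    Par (Fin.cons r t : Fin (j + 1) → ι) v ↔ Par t (symmDiff v {r}) := by
  unfold Par
  refine forall_congr' (fun s => ?_)
  rw [Fin.card_filter_univ_succ]
  simp only [Fin.cons_zero, Function.comp_def, Fin.cons_succ]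
  rw [Finset.mem_symmDiff, Finset.mem_singleton]
  by_cases h : r = s
  · rw [if_pos h]
    subst h
    rw [Nat.odd_add_one]
    tauto
  · rw [if_neg h]
    have h' : ¬ s = r := fun h2 => h h2.symm
    tauto

theorem NT_succ (j : ℕ) (v : Finset ι) : NT (j + 1) v = ∑ r, NT j (symmDiff v {r}) := by
  unfold NT
  rw [← Finset.card_sigma]
  refine Finset.card_nbij' (fun t => ⟨t 0, Fin.tail t⟩) (fun q => Fin.cons q.1 q.2) ?_ ?_ ?_ ?_
  · intro t ht
    simp only [coe_filter, mem_univ, true_and, Set.mem_ofPred_eq, coe_sigma, Set.mem_sigma_iff,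
      coe_univ, Set.mem_univ] at ht ⊢
    rw [← Par_cons, Fin.cons_self_tail]
    exact ht
  · rintro ⟨r, t⟩ ht
    simp only [coe_filter, mem_univ, true_and, Set.mem_ofPred_eq, coe_sigma, Set.mem_sigma_iff,
      coe_univ, Set.mem_univ] at ht ⊢
    rw [Par_cons]
    exact ht
  · intro t _
    simp
  · rintro ⟨r, t⟩ _
    simp

theorem NT_bound (j : ℕ) : ∀ v : Finset ι, (NT j v : ℝ) * (Real.sqrt (Fintype.card ι)) ^ v.card ≤
    (j.factorial : ℝ) * (Real.sqrt (Fintype.card ι)) ^ j := by
  set s := Real.sqrt (Fintype.card ι) with hs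
  have hs0 : 0 ≤ s := Real.sqrt_nonneg _
  have hss : s * s = Fintype.card ι := Real.mul_self_sqrt (by positivity)
  induction j with
  | zero =>
    intro v
    by_cases h : v.card = 0
    · rw [h]
      have : NT 0 v ≤ 1 := by
        unfold NT
        exact (card_le_univ _).trans (by simp)
      have : (NT 0 v : ℝ) ≤ 1 := by exact_mod_cast this
      simpa using this
    · rw [NT_zero_of_lt (Nat.pos_of_ne_zero h)]
      simp
  | succ j ih =>
    intro v
    rcases Nat.lt_or_ge (j + 1) v.card with h | h
    · rw [NT_zero_of_lt h]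
      simp only [Nat.cast_zero, zero_mul]
      positivity
    rcases isEmpty_or_nonempty ι with hE | hNe
    · rw [NT_succ]
      simp only [univ_eq_empty, sum_empty, Nat.cast_zero, zero_mul]
      positivity
    have hspos : 0 < s := Real.sqrt_pos.2 (by exact_mod_cast Fintype.card_pos)
    have hin : ∀ r ∈ v, (NT j (symmDiff v {r}) : ℝ) * s ^ v.card ≤ (j.factorial : ℝ) * s ^ (j + 1) := by
      intro r hr
      have h1 : symmDiff v {r} = v.erase r := by
        ext s
        simp only [mem_symmDiff, mem_singleton, mem_erase]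
        constructor
        · rintro (h2 | h2)
          · exact ⟨h2.2, h2.1⟩
          · exact absurd (h2.1 ▸ hr) h2.2
        · rintro ⟨h2, h3⟩; exact Or.inl ⟨h3, h2⟩
      have h2 := ih (v.erase r)
      rw [h1]
      have h3 : v.card = (v.erase r).card + 1 := (Finset.card_erase_add_one hr).symm
      rw [h3, pow_succ, pow_succ, ← mul_assoc, ← mul_assoc]
      gcongr
    have hout : ∀ r ∉ v, (NT j (symmDiff v {r}) : ℝ) * s ^ v.card * (s * s) ≤
        (if v.card ≤ j then 1 else 0) * ((j.factorial : ℝ) * s ^ (j + 1)) := by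
      intro r hr
      have h1 : symmDiff v {r} = insert r v := by
        ext s
        simp only [mem_symmDiff, mem_singleton, mem_insert]
        constructor
        · rintro (h2 | h2)
          · exact Or.inr h2.1
          · exact Or.inl h2.1
        · rintro (h2 | h2)
          · exact Or.inr ⟨h2, h2 ▸ hr⟩
          · exact Or.inl ⟨h2, fun h3 => hr (h3 ▸ h2)⟩
      rw [h1]
      have h3 : (insert r v).card = v.card + 1 := Finset.card_insert_of_notMem hr
      by_cases h4 : v.card ≤ j
      · rw [if_pos h4, one_mul]
        have h2 := ih (insert r v)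
        rw [h3, pow_succ] at h2
        rw [pow_succ]
        calc (NT j (insert r v) : ℝ) * s ^ v.card * (s * s) =
            ((NT j (insert r v) : ℝ) * (s ^ v.card * s)) * s := by ring
          _ ≤ ((j.factorial : ℝ) * s ^ j) * s := by gcongr
          _ = _ := by ring
      · rw [NT_zero_of_lt (by rw [h3]; omega)]
        simp only [Nat.cast_zero, zero_mul]
        split_ifs
        simp
    have hout' : (∑ r ∈ vᶜ, (NT j (symmDiff v {r}) : ℝ) * s ^ v.card) ≤
        (if v.card ≤ j then 1 else 0) * ((j.factorial : ℝ) * s ^ (j + 1)) := by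
      have h1 : (∑ r ∈ vᶜ, (NT j (symmDiff v {r}) : ℝ) * s ^ v.card) * (s * s) ≤
          ((if v.card ≤ j then 1 else 0) * ((j.factorial : ℝ) * s ^ (j + 1))) * (s * s) := by
        rw [Finset.sum_mul]
        refine (Finset.sum_le_sum (fun r hr => hout r (by simpa using hr))).trans ?_
        rw [Finset.sum_const, nsmul_eq_mul, mul_comm]
        refine mul_le_mul_of_nonneg_left ?_ (by split_ifs <;> positivity)
        rw [hss]
        exact_mod_cast card_le_univ _
      exact le_of_mul_le_mul_right h1 (by positivity)
    have hin' : (∑ r ∈ v, (NT j (symmDiff v {r}) : ℝ) * s ^ v.card) ≤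
        v.card * ((j.factorial : ℝ) * s ^ (j + 1)) := by
      refine (Finset.sum_le_sum hin).trans ?_
      rw [Finset.sum_const, nsmul_eq_mul]
    rw [NT_succ]
    push_cast
    rw [Finset.sum_mul, ← Finset.sum_add_sum_compl v]
    refine (add_le_add hin' hout').trans ?_
    rw [← add_mul, Nat.factorial_succ]
    push_cast
    rw [mul_assoc ((j : ℝ) + 1)]
    refine mul_le_mul_of_nonneg_right ?_ (by positivity)
    split_ifs with h4
    · have : (v.card : ℝ) ≤ j := by exact_mod_cast h4
      linarith
    · have : (v.card : ℝ) ≤ j + 1 := by exact_mod_cast h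
      linarith

end

theorem t_TUP : S_TUP := by
  intro ι _ _ j v
  have h := NT_bound j v
  unfold NT at h
  convert h using 5
  exact Iff.rfl

end Pool.Agent.K1H37.ST
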